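import Pool.Agent.J4H38.GS.Stm4

/-!
# Project GS (helper38, MP_bc6037_nt), fifth part (GS5): the asymptotic formula for almost all shifts

TARGET: for `k ≥ 2` and almost every `α ∈ [0,1)^k`: `∫_1^X Δ(x)² dx ~ M(α) / ((4k-2) π²) X^{2-1/k}`, `M(α) = ∑_n |g_n|² n^{-1-1/k}`,
`g_n = ∑_{n_1⋯n_k = n} e(∑ α_i n_i)` (for `α = 0` this is Cramér's and Tong's constant).

PROOF.  `τ = (k-1)/(2k)`, `f(u) = Δ(e^u)² e^{-2τu}`, `s = τ + z/2 ± it`, `b = 1 - τ - z/2`.  Parseval: `∫_0^∞ f e^{-zu} du =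
(1/π) ∫_0^∞ G(τ+z/2+it) G(τ+z/2-it) dt`; functional equation and Stirling: the integrand is
`(t/2π)^{1-kz} t^{-2} conj(∏ EE (b̄+it)) ∏ EE (b+it)` up to small terms, and `∏ EE` is `∏ expZeta (α_i)` up to small terms, whose mean value is
`MM α b` with a power saving for almost every `α`: in mean square over `α` it is the polynomial `DN` of length `T^η` up to
`T^{-c}` (Borel-Cantelli), and the mean value of the polynomial is elementary.  So the transform is `C/z` plus a continuous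
function on `Re z ≥ 0`: Wiener-Ikehara.
-/

set_option autoImplicit false

open MeasureTheory Set Filter Polynomial Topology
open scoped ComplexConjugate

namespace Pool.Agent.J4H38.GS

noncomputable section

/-! ## Tauberian part and Parseval (Mathlib only) -/

/-- (WI), 200 lines: Wiener-Ikehara for functions.  For the Fejér kernel `K(u) = (1/2π) ∫_{-λ}^{λ} (1 - |y|/λ) e^{iyu} dy ≥ 0` and `x > 0`: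
`∫_0^∞ f(u) e^{-xu} K(U-u) du = C ∫_0^∞ e^{-xu} K(U-u) du + (1/2π) ∫_{-λ}^{λ} (1-|y|/λ) e^{iyU} Ψ(x+iy) dy` (Fubini; `C/z` is the
transform of `C`), `x → 0+` (monotone convergence), `U → ∞` (Riemann-Lebesgue): `∫_0^∞ f(u) K(U-u) du → C`.  Then for the convolutions
of `K` with indicators of `[-δ, h+δ]` resp. `[δ, h-δ]`, and `λ → ∞`. -/
def S_WI : Prop := ∀ (f : ℝ → ℝ) (C r : ℝ), Measurable f → (∀ u, 0 ≤ f u) → 0 < r →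
  (∀ x : ℝ, 0 < x → IntegrableOn (fun u => f u * Real.exp (-x * u)) (Ioi 0)) →
  (∀ Y : ℝ, ∃ Ψ : ℂ → ℂ, ContinuousOn Ψ {z : ℂ | 0 ≤ z.re ∧ z.re ≤ r ∧ |z.im| ≤ Y} ∧
    ∀ z : ℂ, 0 < z.re → z.re ≤ r → |z.im| ≤ Y → ∫ u in Ioi (0 : ℝ), (f u : ℂ) * Complex.exp (-z * u) = C / z + Ψ z) →
  ∀ h : ℝ, 0 < h → Tendsto (fun U : ℝ => ∫ u in U..(U + h), f u) atTop (𝓝 (C * h))

/-- (AB), 80 lines: split `[0, V]` into intervals of length `h` from the right end, `h → 0` -/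
def S_AB : Prop := ∀ (f : ℝ → ℝ) (C a : ℝ), Measurable f → (∀ u, 0 ≤ f u) → 0 < a → 0 ≤ C →
  (∀ x : ℝ, 0 < x → IntegrableOn (fun u => f u * Real.exp (-x * u)) (Ioi 0)) →
  (∀ h : ℝ, 0 < h → Tendsto (fun U : ℝ => ∫ u in U..(U + h), f u) atTop (𝓝 (C * h))) →
  Tendsto (fun V : ℝ => (∫ u in (0 : ℝ)..V, f u * Real.exp (a * u)) / Real.exp (a * V)) atTop (𝓝 (C / a))

/-- (PARS), 120 lines.  `g e^{-σu}` is in `L¹ ∩ L²` for `σ > τ` (Cauchy-Schwarz with `σ' = (σ+τ)/2`), so `∫ g e^{-su} = G(s)` for `Re s > τ` (identity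
theorem); Plancherel (`H153R4.plancherel` or Mathlib) polarised for `v₁ = g e^{-(τ+z/2)u}`, `v₂ = g e^{-(τ+z̄/2)u}`; `conj G(s̄) = G(s)` as `g`
is real. -/
def S_PARS : Prop := ∀ (g : ℝ → ℝ) (G : ℂ → ℂ) (τ A B : ℝ), Measurable g → (∀ u : ℝ, u < 0 → g u = 0) →
  (∀ u : ℝ, 0 ≤ u → |g u| ≤ A * Real.exp (B * u)) → 0 < τ → DifferentiableOn ℂ G {s : ℂ | 0 < s.re} →
  (∀ s : ℂ, 3 / 2 < s.re → ∫ u in Ioi (0 : ℝ), (g u : ℂ) * Complex.exp (-s * u) = G s) →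
  (∀ σ : ℝ, τ < σ → ∫⁻ u in Ioi (0 : ℝ), ‖g u‖ₑ ^ 2 * ENNReal.ofReal (Real.exp (-2 * σ * u)) < ⊤) →
  ∀ z : ℂ, 0 < z.re → IntegrableOn (fun u => g u ^ 2 * Real.exp (-2 * τ * u) * Real.exp (-z.re * u)) (Ioi 0) ∧
    Integrable (fun t : ℝ => G (τ + z / 2 + t * Complex.I) * G (τ + z / 2 - t * Complex.I)) ∧
    ∫ u in Ioi (0 : ℝ), ((g u ^ 2 * Real.exp (-2 * τ * u) : ℝ) : ℂ) * Complex.exp (-z * u) =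
      (1 / (2 * Real.pi) : ℂ) * ∫ t : ℝ, G (τ + z / 2 + t * Complex.I) * G (τ + z / 2 - t * Complex.I)

/-! ## Stirling -/

/-- (GAMP), 100 lines, from `Pool.Agent.H401R2.stirling` (`H401R2/Stir.lean`): the left product is
`(2π)^{-2b} Γ(b-it) Γ(b+it) e^{πt}`, `log (b ± it) = log t ± iπ/2 + b/(±it) + O(1/t²)` -/
def S_GAMP : Prop := ∀ x₀ x₁ Y : ℝ, 0 < x₀ → x₀ ≤ x₁ → ∃ C t₀ : ℝ, 0 ≤ C ∧ 1 ≤ t₀ ∧ ∀ (b : ℂ) (t : ℝ), x₀ ≤ b.re → b.re ≤ x₁ →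
  |b.im| ≤ Y → t₀ ≤ t →
  ‖conj (AA (conj b + t * Complex.I)) * AA (b + t * Complex.I) - ((t / (2 * Real.pi) : ℝ) : ℂ) ^ (2 * b - 1)‖ ≤ C * t ^ (2 * b.re - 2)

/-! ## The mean value -/

/-- the partial sums of `expZeta a w` -/
def SN (N : ℕ) (a : ℝ) (w : ℂ) : ℂ := ∑ n ∈ Finset.Icc 1 N, Complex.exp (2 * Real.pi * Complex.I * a * n) * (n : ℂ) ^ (-w)

def DZ {k : ℕ} (α : Fin k → ℝ) (w : ℂ) : ℂ := ∏ i, HurwitzZeta.expZeta (α i : UnitAddCircle) w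

def DN {k : ℕ} (N : ℕ) (α : Fin k → ℝ) (w : ℂ) : ℂ := ∏ i, SN N (α i) w

def EP {k : ℕ} (α : Fin k → ℝ) (w : ℂ) : ℂ := ∏ i, EE (α i) w

/-- the coefficients of `DZ` -/
def gg {k : ℕ} (α : Fin k → ℝ) (n : ℕ) : ℂ :=
  ∑ f ∈ Nat.finMulAntidiag k n, Complex.exp (2 * Real.pi * Complex.I * ((∑ i, α i * f i : ℝ) : ℂ))

/-- the coefficients of `DN` -/
def gN {k : ℕ} (N : ℕ) (α : Fin k → ℝ) (n : ℕ) : ℂ :=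
  ∑ f ∈ (Fintype.piFinset fun _ : Fin k => Finset.Icc 1 N).filter (fun f => ∏ i, f i = n),
    Complex.exp (2 * Real.pi * Complex.I * ((∑ i, α i * f i : ℝ) : ℂ))

def MM {k : ℕ} (α : Fin k → ℝ) (b : ℂ) : ℂ := ∑' n : ℕ, ((‖gg α (n + 1)‖ ^ 2 : ℝ) : ℂ) * ((n : ℂ) + 1) ^ (-(2 * b))

def MN {k : ℕ} (N : ℕ) (α : Fin k → ℝ) (b : ℂ) : ℂ :=
  ∑ n ∈ Finset.Icc 1 (N ^ k), ((‖gN N α n‖ ^ 2 : ℝ) : ℂ) * (n : ℂ) ^ (-(2 * b))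

def NJ (η : ℝ) (j : ℕ) : ℕ := ⌈(2 : ℝ) ^ (η * j)⌉₊

def box (x₀ x₁ Y : ℝ) : Set ℂ := {b : ℂ | x₀ ≤ b.re ∧ b.re ≤ x₁ ∧ |b.im| ≤ Y}

/-- (EZ), 60 lines: as `J4H38/GS/L3.lean` (Abel summation; the transform of a bounded function is the limit of the partial sums) -/
def S_EZ : Prop := ∀ a : ℝ, 0 < a → a < 1 → ∀ w : ℂ, 0 < w.re →
  Tendsto (fun N : ℕ => SN N a w) atTop (𝓝 (HurwitzZeta.expZeta (a : UnitAddCircle) w))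

/-- (LA), `t_LA : S_EZ → S_LA`, 80 lines: orthogonality of the `e(na)` on `[0,1)` and Fatou -/
def S_LA : Prop := ∀ w : ℂ, 1 / 2 < w.re → (∀ N : ℕ, 1 ≤ N →
    ∫⁻ a in Ico (0 : ℝ) 1, ‖HurwitzZeta.expZeta (a : UnitAddCircle) w - SN N a w‖ₑ ^ 2 ≤
      ENNReal.ofReal ((N : ℝ) ^ (1 - 2 * w.re) / (2 * w.re - 1))) ∧
  (∀ N : ℕ, ∫⁻ a in Ico (0 : ℝ) 1, ‖SN N a w‖ₑ ^ 2 ≤ ENNReal.ofReal (1 + 1 / (2 * w.re - 1))) ∧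
  ∫⁻ a in Ico (0 : ℝ) 1, ‖HurwitzZeta.expZeta (a : UnitAddCircle) w‖ₑ ^ 2 ≤ ENNReal.ofReal (1 + 1 / (2 * w.re - 1))

/-- (REM), `t_REM : S_EZ → S_LA → S_REM`, 200 lines.  `|∏ x_i - ∏ y_i|² ≤ k ∑_i |x_i - y_i|² ∏_{l<i} |x_l|² ∏_{l>i} |y_l|²`, so the mean square over the cube of
`DZ - DN` at `w` is `≤ C N^{1 - 2 Re w}`; integrate over the box `[x₀-r, x₁+r] × [2^j-Y-r, 2^{j+1}+Y+r]`, `r = min (x₀-1/2)/2 1`, `N = NJ η j`: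
`≤ C 2^{j(1-2δ)}`; Borel-Cantelli (`∑_j 2^{-j(1-δ)}` times it has finite integral, so is finite a.e.); `Y ∈ ℕ`.  For `α` with all
`α_i ≠ 0` the function is entire, so `|h(w)|² ≤ (1/πr²) ∫_{disc} |h|²`, integrated over `t`.  (Joint measurability: (EZ).) -/
def S_REM : Prop := ∀ (k : ℕ) (x₀ x₁ η : ℝ), 1 / 2 < x₀ → x₀ ≤ x₁ → 0 < η → ∃ δ : ℝ, 0 < δ ∧
  ∀ᵐ α ∂(volume.restrict (cube k)), ∀ Y : ℝ, ∃ C : ℝ, 0 ≤ C ∧ ∀ (j : ℕ), ∀ b ∈ box x₀ x₁ Y,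
    ∫ t in ((2 : ℝ) ^ j)..(2 ^ (j + 1)), ‖DZ α (b + t * Complex.I) - DN (NJ η j) α (b + t * Complex.I)‖ ^ 2 ≤
      C * (2 : ℝ) ^ (j * (1 - δ))

/-- (SUB), `t_SUB : S_EZ → S_LA → S_SUB`, 120 lines, the same with `∏ (1 + |x_i|)² ≤ 2^k ∑_S ∏_{i ∈ S} |x_i|²` -/
def S_SUB : Prop := ∀ (k : ℕ) (x₀ x₁ ε : ℝ), 1 / 2 < x₀ → x₀ ≤ x₁ → 0 < ε →
  ∀ᵐ α ∂(volume.restrict (cube k)), ∀ Y : ℝ, ∃ C : ℝ, 0 ≤ C ∧ ∀ (j : ℕ), ∀ b ∈ box x₀ x₁ Y,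
    ∫ t in ((2 : ℝ) ^ j)..(2 ^ (j + 1)), ∏ i, (1 + ‖HurwitzZeta.expZeta (α i : UnitAddCircle) (b + t * Complex.I)‖) ^ 2 ≤
      C * (2 : ℝ) ^ (j * (1 + ε))

/-- (DK): the divisor bound (look in the library) -/
def S_DK : Prop := ∀ (k : ℕ) (ε : ℝ), 0 < ε → ∃ C : ℝ, 0 ≤ C ∧ ∀ n : ℕ, 1 ≤ n → ((Nat.finMulAntidiag k n).card : ℝ) ≤ C * (n : ℝ) ^ ε

/-- (DIA), `t_DIA : S_DK → S_DIA`, 100 lines: for `n ≤ N` the two coefficients are equal, in general both are at most `d_k(n)` -/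
def S_DIA : Prop := ∀ (k : ℕ) (α : Fin k → ℝ), DifferentiableOn ℂ (MM α) {b : ℂ | 1 / 2 < b.re} ∧
  ∀ x₀ η : ℝ, 1 / 2 < x₀ → 0 < η → ∃ δ C : ℝ, 0 < δ ∧ 0 ≤ C ∧ ∀ (j : ℕ) (b : ℂ), x₀ ≤ b.re →
    ‖MN (NJ η j) α b - MM α b‖ ≤ C * (2 : ℝ) ^ (-(δ * j))

/-- (POL), 120 lines: expand (`Finset.prod_univ_sum`), the terms with equal products give `MN`, the others are at most `2 N^k` each, `N^{2k}` in number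
(`|∫_a^b e^{ict} dt| ≤ 2/|c|`, `|log (m/n)| ≥ 1/max(m,n)`) -/
def S_POL : Prop := ∀ (k : ℕ) (x₀ η : ℝ), 0 ≤ x₀ → 0 < η → 6 * k * η ≤ 1 → ∀ α : Fin k → ℝ, ∃ C : ℝ, 0 ≤ C ∧
  ∀ (j : ℕ) (b : ℂ) (T : ℝ), x₀ ≤ b.re → (2 : ℝ) ^ j ≤ T → T ≤ 2 ^ (j + 1) →
    ‖(∫ t in ((2 : ℝ) ^ j)..T, conj (DN (NJ η j) α (conj b + t * Complex.I)) * DN (NJ η j) α (b + t * Complex.I)) -
      ((T - 2 ^ j : ℝ) : ℂ) * MN (NJ η j) α b‖ ≤ C * (2 : ℝ) ^ ((j : ℝ) / 2)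

/-- (MVD), `t_MVD : S_REM → S_SUB → S_DIA → S_POL → S_MVD`, 100 lines: Cauchy-Schwarz, `η = 1/(6k+6)`, `ε = δ/2` -/
def S_MVD : Prop := ∀ (k : ℕ) (x₀ x₁ : ℝ), 1 / 2 < x₀ → x₀ ≤ x₁ → ∃ δ : ℝ, 0 < δ ∧
  ∀ᵐ α ∂(volume.restrict (cube k)), ∀ Y : ℝ, ∃ C : ℝ, 0 ≤ C ∧ ∀ (j : ℕ), ∀ b ∈ box x₀ x₁ Y, ∀ T : ℝ, (2 : ℝ) ^ j ≤ T → T ≤ 2 ^ (j + 1) →
    ‖(∫ t in ((2 : ℝ) ^ j)..T, conj (DZ α (conj b + t * Complex.I)) * DZ α (b + t * Complex.I)) - ((T - 2 ^ j : ℝ) : ℂ) * MM α b‖ ≤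
      C * (2 : ℝ) ^ (j * (1 - δ))

/-- (MVE), `t_MVE : S_L2 → S_L3 → S_SUB → S_MVD → S_MVE`, 150 lines: for `0 < a < 1`, `Re w ≥ x₀`, `Im w ≥ 1`:
`|EE a w - expZeta a w| ≤ C (Im w)^{1/2 - x₀}` (L2, L3), telescoping, (SUB) -/
def S_MVE : Prop := ∀ (k : ℕ) (x₀ x₁ : ℝ), 1 / 2 < x₀ → x₀ ≤ x₁ → (∃ δ : ℝ, 0 < δ ∧
  ∀ᵐ α ∂(volume.restrict (cube k)), ∀ Y : ℝ, ∃ C : ℝ, 0 ≤ C ∧ ∀ (j : ℕ), Y + 1 ≤ 2 ^ j → ∀ b ∈ box x₀ x₁ Y, ∀ T : ℝ,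
    (2 : ℝ) ^ j ≤ T → T ≤ 2 ^ (j + 1) →
    ‖(∫ t in ((2 : ℝ) ^ j)..T, conj (EP α (conj b + t * Complex.I)) * EP α (b + t * Complex.I)) - ((T - 2 ^ j : ℝ) : ℂ) * MM α b‖ ≤
      C * (2 : ℝ) ^ (j * (1 - δ))) ∧
  ∀ ε : ℝ, 0 < ε → ∀ᵐ α ∂(volume.restrict (cube k)), ∀ Y : ℝ, ∃ C : ℝ, 0 ≤ C ∧ ∀ (j : ℕ), Y + 1 ≤ 2 ^ j → ∀ b ∈ box x₀ x₁ Y,
    ∫ t in ((2 : ℝ) ^ j)..(2 ^ (j + 1)), ‖EP α (b + t * Complex.I)‖ ^ 2 ≤ C * (2 : ℝ) ^ (j * (1 + ε))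

/-- (ASY): the theorem (assembly: helper38) -/
def S_ASY : Prop := ∀ k : ℕ, 2 ≤ k → ∀ᵐ α ∂(volume.restrict (cube k)), ∃ P : ℝ[X], P.degree < (k : WithBot ℕ) ∧
  Tendsto (fun X : ℝ => (∫ x in (1 : ℝ)..X, ((cnt k α x : ℝ) - x * P.eval (Real.log x)) ^ 2) / X ^ (2 - 1 / (k : ℝ))) atTop
    (𝓝 ((∑' n : ℕ, ‖gg α (n + 1)‖ ^ 2 / ((n : ℝ) + 1) ^ (1 + 1 / (k : ℝ))) / ((4 * k - 2) * Real.pi ^ 2)))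

end

end Pool.Agent.J4H38.GS
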