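import Pool.Agent.J4H38.GS.Stm

/-!
# Project GS (helper38, MP_bc6037_nt), second part: up to two of the shifts equal to zero

For `J ≤ 2`, `J + k ≥ 1` and almost every `α ∈ [0,1)^k`: the shift vector `(0, …, 0, α)` (`J` zeros).
-/

set_option autoImplicit false

open MeasureTheory Set Filter Polynomial

namespace Pool.Agent.J4H38.GS

noncomputable section

/-- the shift vector with `J` zeros followed by `α` -/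
def app (J k : ℕ) (α : Fin k → ℝ) : Fin (J + k) → ℝ := Fin.append (fun _ => (0 : ℝ)) α

/-- (Z1), 60 lines, from HUR and DAN: for `Re s > 1` it is `zeta_eq_tsum_one_div_nat_add_one_cpow`; then the identity theorem for
`(s - 1) DD 0 s + 1` and the entire function `riemannZeta₁ s = (s - 1) ζ(s)` on `Re s > 0`
(`AnalyticOnNhd.eqOn_of_preconnected_of_eventuallyEq`; compare `cont` in `Pool/Agent/J4H77/PE/Cont2.lean`). -/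
def S_Z1 : Prop := ∀ s : ℂ, 0 < s.re → s ≠ 1 → DD 0 s + 1 / (s - 1) = riemannZeta s

/-- (Z2), 100 lines: functional equation (`riemannZeta_one_sub`) and a bound for `Γ` in vertical strips (look for one in the library). -/
def S_Z2 : Prop := ∀ σ : ℝ, 0 < σ → σ < 1 / 2 → ∃ C : ℝ, 0 ≤ C ∧ ∀ t : ℝ, 1 ≤ |t| →
  ‖riemannZeta (σ + t * Complex.I)‖ ≤ C * |t| ^ (1 / 2 - σ) * ‖riemannZeta ((1 - σ : ℝ) + t * Complex.I)‖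

/-- (Z3A), 100 lines: from `Pool.Agent.TH158.FM.fourth_all` (`∫_0^T |ζ(1/2 + i t)|^4 ≤ (4/5) T (log T)^4`), dyadic blocks
`2^j ≤ |t| ≤ 2^{j+1}`; `|ζ(1/2 - i t)| = |ζ(1/2 + i t)|`. -/
def S_Z3A : Prop := ∀ w : ℝ, 1 < w →
  ∫⁻ t in {t : ℝ | 1 ≤ |t|}, ‖riemannZeta ((1 / 2 : ℝ) + t * Complex.I)‖ₑ ^ 4 * ENNReal.ofReal (|t| ^ (-w)) < ⊤

/-- (Z3) from Z3A, 120 lines: for `1/2 < σ < 1`, `Pool.Agent.J4H77.PE.cauchy_gauss` (with `F = Zf ^ 4`, the lines `1/2` and `2`, as in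
`sup1` of `PE/Three.lean`) gives
`|Zf(σ + i t)|^4 ≤ C ∫ (|Zf(1/2 + i y)|^4 + |Zf(2 + i y)|^4) e^{-(y-t)²} dy`; integrate against `(1 + |t|)^{-w}` and use
`(1 + |t|)^{-w} ≤ (1 + |y|)^{-w} (1 + |y - t|)^w`. -/
def S_Z3 : Prop := ∀ σ w : ℝ, 1 / 2 ≤ σ → σ < 1 → 1 < w →
  ∫⁻ t in {t : ℝ | 1 ≤ |t|}, ‖riemannZeta (σ + t * Complex.I)‖ₑ ^ 4 * ENNReal.ofReal (|t| ^ (-w)) < ⊤

/-- (Z4) from Z2 and Z3, 80 lines.  With `K = J + k`: `K (1 - 2σ) < 1`.  For `J = 2` it is Z2 and Z3 with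
`w = 2 - K (1 - 2σ) > 1`; for `J ≤ 2` put `A = |ζ(σ + it)|² |t|^{-(1-2σ)}` and use `A^J ≤ 1 + A²`, so that
`|ζ|^{2J} |t|^{k(1-2σ)-2} = A^J |t|^{K(1-2σ)-2} ≤ |t|^{K(1-2σ)-2} + |ζ|^4 |t|^{(K-2)(1-2σ)-2}`. -/
def S_Z4 : Prop := ∀ (J k : ℕ) (σ : ℝ), J ≤ 2 → 1 ≤ J + k → (((J + k : ℕ) : ℝ) - 1) / (2 * ((J + k : ℕ) : ℝ)) < σ →
  0 < σ → σ < 1 / 2 →
  ∫⁻ t in {t : ℝ | 1 ≤ |t|}, ‖riemannZeta (σ + t * Complex.I)‖ₑ ^ (2 * J) * ENNReal.ofReal (|t| ^ ((k : ℝ) * (1 - 2 * σ) - 2)) < ⊤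

/-- (FU2) from SM, Z1, Z4, as FU (`Fin.prod_univ_add`, `Fin.append_left`, `Fin.append_right`), 80 lines -/
def S_FU2 : Prop := ∀ (J k : ℕ) (σ : ℝ), J ≤ 2 → 1 ≤ J + k → (((J + k : ℕ) : ℝ) - 1) / (2 * ((J + k : ℕ) : ℝ)) < σ →
  0 < σ → σ < 1 / 2 → ∀ᵐ α ∂(volume.restrict (cube k)),
    ∫⁻ t in {t : ℝ | 1 ≤ |t|}, ‖ZZ (J + k) (app J k α) (σ + t * Complex.I)‖ₑ ^ 2 < ⊤

/-- the theorem with zeros (assembly: helper38) -/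
def S_TOP2 : Prop := ∀ J k : ℕ, J ≤ 2 → 1 ≤ J + k → ∀ᵐ α ∂(volume.restrict (cube k)), ∃ P : ℝ[X],
  P.degree < ((J + k : ℕ) : WithBot ℕ) ∧ ∀ ε : ℝ, 0 < ε → ∃ C : ℝ, ∀ X : ℝ, 1 ≤ X →
    ∫ x in (1 : ℝ)..X, ((cnt (J + k) (app J k α) x : ℝ) - x * P.eval (Real.log x)) ^ 2 ≤
      C * X ^ (1 + (((J + k : ℕ) : ℝ) - 1) / ((J + k : ℕ) : ℝ) + ε)

end

end Pool.Agent.J4H38.GS
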