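import Mathlib

/-!
# Project GS (helper38, MP_bc6037_nt, Piltz divisor problem): exact statements

Theorem aimed at: for every `k ≥ 1` and almost every shift `α ∈ [0,1)^k` the number of the `n ∈ ℕ_{≥ 1}^k` with
`∏ (n_i + α_i) ≤ x` is `x P(log x) + Δ(x)` with `∫_1^X Δ² ≪ X^{1 + (k-1)/k + ε}`, that is `β_k ≤ (k - 1)/(2 k)`
(for `α = 0` this is the open conjecture, equivalent to the Lindelöf hypothesis for all `k`).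
-/

set_option autoImplicit false

open MeasureTheory Set Filter Polynomial

namespace Pool.Agent.J4H38.GS

noncomputable section

/-- the number of the `n` with all `n_i ≥ 1` and `∏ (n_i + α_i) ≤ x` -/
def cnt (k : ℕ) (α : Fin k → ℝ) (x : ℝ) : ℕ :=
  {n : Fin k → ℕ | (∀ i, 1 ≤ n i) ∧ ∏ i, ((n i : ℝ) + α i) ≤ x}.ncard

/-- the sawtooth: `#{n ≥ 1 : n + a ≤ y} - (y - 1)` for `y ≥ 1`, `0 ≤ a < 1` -/
def saw (a y : ℝ) : ℝ := (⌊y - a⌋ : ℝ) - y + 1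

/-- `DD a s = ∑_{n ≥ 1} (n + a)^{-s} - 1/(s - 1)`, for `Re s > 0` -/
def DD (a : ℝ) (s : ℂ) : ℂ := s * ∫ y in Ioi (1 : ℝ), (saw a y : ℂ) * (y : ℂ) ^ (-s - 1)

/-- the Mellin transform of `cnt` -/
def ZZ (k : ℕ) (α : Fin k → ℝ) (s : ℂ) : ℂ := (∏ i, (DD (α i) s + 1 / (s - 1))) / s

/-- the principal part belonging to the main term `x P(log x)` -/
def RR (P : ℂ[X]) (s : ℂ) : ℂ := P.sum (fun j p => p * ((j.factorial : ℂ) / (s - 1) ^ (j + 1)))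

/-- `∫_1^∞ e(-m y) y^{-s-1} dy` -/
def KK (m : ℤ) (s : ℂ) : ℂ :=
  ∫ y in Ioi (1 : ℝ), Complex.exp (-(2 * Real.pi * m * y : ℝ) * Complex.I) * (y : ℂ) ^ (-s - 1)

/-- the cube of the shifts -/
def cube (k : ℕ) : Set (Fin k → ℝ) := Set.pi univ (fun _ => Ico (0 : ℝ) 1)

/-- (DAN), 60 lines. `|saw| ≤ 1` for `y ≥ 1`; differentiability: `mellin_differentiableAt_of_isBigO_rpow` (the integral is
`mellin (indicator (Ioi 1) (saw a)) (-s)`), or differentiation under the integral sign. -/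
def S_DAN : Prop := ∀ a : ℝ, 0 ≤ a → a < 1 → DifferentiableOn ℂ (DD a) {s : ℂ | 0 < s.re} ∧
  ∀ s : ℂ, 0 < s.re → ‖DD a s‖ ≤ ‖s‖ / s.re

/-- (HUR), 80 lines. `⌊y - a⌋ = ∑_{n ≥ 1} 1[n + a ≤ y]` for `y ≥ 1`, `s ∫_{n+a}^∞ y^{-s-1} = (n + a)^{-s}`, sum and integral
exchanged (`hasSum_integral_of_summable_integral_norm`), and `s ∫_1^∞ (y - 1) y^{-s-1} = 1/(s - 1)`. -/
def S_HUR : Prop := ∀ a : ℝ, 0 ≤ a → a < 1 → ∀ s : ℂ, 1 < s.re →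
  HasSum (fun n : ℕ => (((n : ℝ) + 1 + a : ℝ) : ℂ) ^ (-s)) (DD a s + 1 / (s - 1))

/-- (KB), 150 lines. Amplitude `y^{-σ-1}`, phase `-(t log y + 2 π m y)`.  First and second derivative test without
amplitude: `Pool.Agent.Helper523.UF.StatPhase` (`first_deriv`, `first_deriv_neg`, `second_deriv`), then partial
integration (the amplitude is monotone), on dyadic intervals `[Y, 2Y]`, `Y = 2^j`: the first derivative test gives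
`≪ Y^{-σ-1} / |φ'|`, the second `≪ Y^{-σ} |t|^{-1/2}`.
Case `|m| ≤ |t|`: `y₀ = |t|/(2π|m|)`; for `2 Y ≤ y₀ / 2` one has `|φ'| ≥ |t|/(2 y)` and the sum of the `Y^{-σ}/|t|` is
`≪ 1/|t| ≤ (|m|/|t|)^σ |t|^{-1/2}` (`σ ≤ 1/2`); the other `Y` sum up to `≪ y₀^{-σ} |t|^{-1/2}`.
Case `|t| ≤ |m|`: `|φ'| ≥ 2π|m| - |t|/y ≥ 5 |m|` for all `y ≥ 1`. -/
def S_KB : Prop := ∀ σ : ℝ, 0 < σ → σ < 1 / 2 → ∃ C : ℝ, 0 ≤ C ∧ ∀ (m : ℤ) (t : ℝ), m ≠ 0 → 1 ≤ |t| →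
  (|(m : ℝ)| ≤ |t| → ‖KK m (σ + t * Complex.I)‖ ≤ C * (|(m : ℝ)| / |t|) ^ σ * |t| ^ (-(1 / 2) : ℝ)) ∧
  (|t| ≤ |(m : ℝ)| → ‖KK m (σ + t * Complex.I)‖ ≤ C / |(m : ℝ)|)

/-- (SM), 150 lines, from KB.  The Fourier coefficients of `a ↦ DD a s` on `[0, 1)`: for `m ≠ 0`
`∫_0^1 ⌊y - a⌋ e(-m a) da = (1 - e(-m y))/(2 π i m)`, so the coefficient is `(1 - s KK m s)/(2 π i m)` (use
`s ∫_1^∞ y^{-s-1} = 1`), and `∫_0^1 saw a y da = 0`, so the coefficient at `0` vanishes.  Parseval (`tsum_sq_fourierCoeff` or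
`hasSum_sq_fourierCoeffOn`), and by KB the coefficient is `≪ (|t|/|m|)^{1-σ} |t|^{-1/2}` for `|m| ≤ |t|`, `≪ 1/|m|` for
`|m| > |t|`; `∑_m |m|^{2σ-2} < ∞`.  For `|t| ≤ 1` use `‖DD a s‖ ≤ ‖s‖/σ`. -/
def S_SM : Prop := ∀ σ : ℝ, 0 < σ → σ < 1 / 2 → ∃ C : ℝ, 0 ≤ C ∧ ∀ t : ℝ,
  ∫⁻ a in Ico (0 : ℝ) 1, ‖DD a (σ + t * Complex.I)‖ₑ ^ 2 ≤ ENNReal.ofReal (C * (1 + |t|) ^ (1 - 2 * σ))

/-- (FU), 120 lines, from SM.  `E ∏ |DD (α_i) s + 1/(s-1)|² = ∏ E |…|² ≤ C' (1 + |t|)^{k (1 - 2σ)}` for `|t| ≥ 1`, divided by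
`|s|² ≥ t²` this is integrable as `k (1 - 2σ) < 1`; Tonelli (joint measurability of `(a, t) ↦ DD a (σ + i t)`:
`StronglyMeasurable.integral_prod_right`), `ae_lt_top`. -/
def S_FU : Prop := ∀ (k : ℕ) (σ : ℝ), 1 ≤ k → ((k : ℝ) - 1) / (2 * k) < σ → 0 < σ → σ < 1 / 2 →
  ∀ᵐ α ∂(volume.restrict (cube k)), ∫⁻ t in {t : ℝ | 1 ≤ |t|}, ‖ZZ k α (σ + t * Complex.I)‖ₑ ^ 2 < ⊤

/-- (TR), 150 lines, from HUR.  Rankin: `1[∏ ≤ x] ≤ (x/∏)^{3/2}` and `∏_i ∑_{n_i ≥ 1} (n_i + α_i)^{-3/2} < ∞`; the transform: for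
each `n`, `∫_0^∞ 1[λ_n ≤ e^u] e^{-su} du = λ_n^{-s}/s`, `λ_n = ∏ (n_i + α_i) ≥ 1`; exchange by absolute convergence; the sum of
`∏ (n_i + α_i)^{-s}` over `n : Fin k → ℕ` is the product of the sums (induction on `k`, or `Summable`/`HasSum` over
`Fin k → ℕ` via `Fin.consEquiv`, `HasSum.mul`). -/
def S_TR : Prop := ∀ (k : ℕ) (α : Fin k → ℝ), α ∈ cube k → Measurable (fun x => (cnt k α x : ℝ)) ∧
  (∃ C : ℝ, 0 ≤ C ∧ ∀ x : ℝ, 1 ≤ x → (cnt k α x : ℝ) ≤ C * x ^ (3 / 2 : ℝ)) ∧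
  ∀ s : ℂ, 3 / 2 < s.re → ∫ u in Ioi (0 : ℝ), (cnt k α (Real.exp u) : ℂ) * Complex.exp (-s * u) = ZZ k α s

/-- (PP), 120 lines.  `h(s) = (∏ (1 + (s - 1) D_i(s)))/s` is holomorphic for `Re s > 0` and the function in question is
`h(s)/(s - 1)^k`.  With `f_0 = h`, `f_{j+1} = dslope f_j 1` (`Complex.differentiableOn_dslope`) one has
`h(s) = ∑_{j<k} f_j(1) (s - 1)^j + (s - 1)^k f_k(s)`; `G = f_k`, `P = ∑_{j<k} f_j(1)/(k-1-j)! X^{k-1-j}`.  Growth: near `s = 1` by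
compactness, for `|s - 1| ≥ δ/2` from the formula. -/
def S_PP : Prop := ∀ (k : ℕ) (Dv : Fin k → ℂ → ℂ), 1 ≤ k →
  (∀ i, DifferentiableOn ℂ (Dv i) {s : ℂ | 0 < s.re}) → (∀ i, ∀ s : ℂ, 0 < s.re → ‖Dv i s‖ ≤ ‖s‖ / s.re) →
  ∃ (P : ℂ[X]) (G : ℂ → ℂ), P.degree < (k : WithBot ℕ) ∧ DifferentiableOn ℂ G {s : ℂ | 0 < s.re} ∧
    (∀ s : ℂ, 0 < s.re → s ≠ 1 → (∏ i, (Dv i s + 1 / (s - 1))) / s = G s + RR P s) ∧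
    ∀ δ : ℝ, 0 < δ → ∃ (C : ℝ) (m : ℕ), 0 ≤ C ∧ ∀ s : ℂ, δ ≤ s.re → s.re ≤ 3 → ‖G s‖ ≤ C * (1 + |s.im|) ^ m

/-- (PM), 80 lines: as `Rf_eq`, `mono_val`, `mono_int` in `Pool/Agent/J4H77/PE/Mel.lean` (there for real `P`). -/
def S_PM : Prop := ∀ (P : ℂ[X]) (s : ℂ), 1 < s.re →
  IntegrableOn (fun u : ℝ => (Real.exp u : ℂ) * P.eval (u : ℂ) * Complex.exp (-s * u)) (Ioi 0) ∧
  ∫ u in Ioi (0 : ℝ), (Real.exp u : ℂ) * P.eval (u : ℂ) * Complex.exp (-s * u) = RR P s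

/-- (MS), 250 lines (may be split; compare `Pool/Agent/J4H77/PE/{Grow,Pl,Pl2,Pl3,Pl4}.lean`, `H153R4.plancherel`).  Let `φ` be a
nonnegative smooth bump with support in `[-1, 1]`, integral `1`, `φ_ε(u) = φ(u/ε)/ε`, `Φ_ε(s) = ∫ φ_ε(u) e^{-su} du`: entire,
`|Φ_ε(s)| ≤ e^{|Re s|}` (`ε ≤ 1`), and `≪_{ε,N} (1 + |t|)^{-N}` in vertical strips (partial integration).  `g * φ_ε` is continuous, its
transform on `Re s = c` is `G Φ_ε`, integrable, so (Fourier inversion, then Cauchy's theorem between `Re s = c` and `Re s = σ`)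
`e^{-σ v} (g * φ_ε)(v) = (1/2π) ∫ G(σ + i t) Φ_ε(σ + i t) e^{i t v} dt`, and Plancherel gives
`∫ |e^{-σ v} (g * φ_ε)(v)|² dv ≤ e^{2σ}/(2π) ∫ |G(σ + i t)|² dt`.  As `ε → 0`, `g * φ_ε → g` almost everywhere
(`ContDiffBump.ae_convolution_tendsto_right_of_locallyIntegrable`), and Fatou's lemma. -/
def S_MS : Prop := ∀ (g : ℝ → ℂ) (G : ℂ → ℂ) (σ c b A C : ℝ) (m : ℕ), 0 < σ → σ < c → b < c → Measurable g →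
  (∀ u : ℝ, u < 0 → g u = 0) → (∀ u : ℝ, 0 ≤ u → ‖g u‖ ≤ A * Real.exp (b * u)) →
  DifferentiableOn ℂ G {s : ℂ | 0 < s.re} →
  (∀ s : ℂ, σ ≤ s.re → s.re ≤ c → ‖G s‖ ≤ C * (1 + |s.im|) ^ m) →
  (∀ t : ℝ, ∫ u in Ioi (0 : ℝ), g u * Complex.exp (-(c + t * Complex.I) * u) = G (c + t * Complex.I)) →
  ∫⁻ t : ℝ, ‖G (σ + t * Complex.I)‖ₑ ^ 2 < ⊤ →
  ∫⁻ u in Ioi (0 : ℝ), ‖g u‖ₑ ^ 2 * ENNReal.ofReal (Real.exp (-2 * σ * u)) < ⊤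

/-- the theorem (assembly: helper38) -/
def S_TOP : Prop := ∀ k : ℕ, 1 ≤ k → ∀ᵐ α ∂(volume.restrict (cube k)), ∃ P : ℝ[X], P.degree < (k : WithBot ℕ) ∧
  ∀ ε : ℝ, 0 < ε → ∃ C : ℝ, ∀ X : ℝ, 1 ≤ X →
    ∫ x in (1 : ℝ)..X, ((cnt k α x : ℝ) - x * P.eval (Real.log x)) ^ 2 ≤ C * X ^ (1 + ((k : ℝ) - 1) / k + ε)

end

end Pool.Agent.J4H38.GS
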