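import Pool.Agent.J4H38.GS.Stm

/-!
# Project GS (helper38, MP_bc6037_nt), third part: the exponent is exact for almost all shifts

`cc m s` is the `m`-th Fourier coefficient of `a ↦ DD a s + 1/(s-1)` on `[0,1)` (see `coef_ne`, `coef_zero`, `parseval`, `coef_bd` in
`Pool/Agent/J4H13/GS/Sm.lean`).
-/

set_option autoImplicit false

open MeasureTheory Set Filter Polynomial Topology
open scoped ComplexConjugate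

namespace Pool.Agent.J4H38.GS

noncomputable section

/-- the Fourier coefficients -/
def cc (m : ℤ) (s : ℂ) : ℂ := if m = 0 then 1 / (s - 1) else (1 - s * KK m s) / (2 * Real.pi * m * Complex.I)

/-- the line -/
def ln (σ t : ℝ) : ℂ := σ + t * Complex.I

/-- the ratios -/
def rr (σ : ℝ) (m : ℤ) (t : ℝ) : ℂ := cc m (ln σ t) / cc (-1) (ln σ t)

/-- the inner products of the normalised functions -/
def SS (σ t t' : ℝ) : ℂ := (∫ a in (0 : ℝ)..1, (DD a (ln σ t) + 1 / (ln σ t - 1)) * conj (DD a (ln σ t') + 1 / (ln σ t' - 1))) /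
  (cc (-1) (ln σ t) * conj (cc (-1) (ln σ t')))

/-- (E1), 120 lines.  `KK (-1) s = ∫_1^∞ e(y) y^{-s-1} dy = Γ(-s) (-2πi)^s - ∫_0^1 (e(y) - 1) y^{-s-1} dy + 1/s`, from
`∫_0^∞ (e^{-ry} - 1) y^{-s-1} dy = Γ(-s) r^s` (`Re r > 0`, partial integration and `Complex.integral_cpow_mul_exp_neg_mul_Ioi`; then
`r → -2πi`, dominated convergence, `0 < Re s < 1`); `∫_0^1 (e(y) - 1) y^{-s-1} dy = O(1/t)` (partial integration);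
`|Γ(-s)| ≥ π / (|sin π s| |Γ(1+s)|) ≥ c t^{-σ-1/2} e^{-πt/2}` (`Gamma_abs` in `Pool/Agent/J4H55/GS/Z2.lean` bounds `|Γ(1+s)|`). -/
def S_E1 : Prop := ∀ σ : ℝ, 0 < σ → σ < 1 / 2 → ∃ c t₀ : ℝ, 0 < c ∧ 1 ≤ t₀ ∧ ∀ t : ℝ, t₀ ≤ t →
  c * t ^ (-σ - 1 / 2) ≤ ‖KK (-1) (ln σ t)‖ ∧ c * t ^ (1 / 2 - σ) ≤ ‖cc (-1) (ln σ t)‖

/-- (E2), 120 lines, from KB and E1.  `KK (-n) s = n^s (KK (-1) s - ∫_1^n e(y) y^{-s-1} dy)` (scaling), and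
`∫_1^n e(y) y^{-s-1} dy = O_n(1/t)` (partial integration or first derivative test); for `m > 0` `KK m s = O_m(1/t)` (no stationary
point: partial integration).  (iii): `coef_bd` and E1. -/
def S_E2 : Prop := ∀ σ : ℝ, 0 < σ → σ < 1 / 2 →
  (∀ n : ℕ, 1 ≤ n → Tendsto (fun t : ℝ => rr σ (-(n : ℤ)) t - (n : ℂ) ^ ((σ - 1 : ℂ) + t * Complex.I)) atTop (𝓝 0)) ∧
  (∀ m : ℤ, 0 ≤ m → Tendsto (fun t : ℝ => rr σ m t) atTop (𝓝 0)) ∧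
  ∃ C t₀ : ℝ, 0 ≤ C ∧ 1 ≤ t₀ ∧ (∀ t : ℝ, t₀ ≤ t → cc (-1) (ln σ t) ≠ 0) ∧
    ∀ (m : ℤ) (t : ℝ), t₀ ≤ t → ‖rr σ m t‖ ≤ C * (if m = 0 then 1 else |(m : ℝ)| ^ (σ - 1))

/-- (E3), 60 lines: polarised Parseval (from `hasSum_prod_mul...`/`fourierCoeff` inner products, or from `parseval`-type identities by
polarisation), `coef_ne`, `coef_zero`. -/
def S_E3 : Prop := ∀ s s' : ℂ, 0 < s.re → 0 < s'.re →
  HasSum (fun m : ℤ => cc m s * conj (cc m s'))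
    (∫ a in (0 : ℝ)..1, (DD a s + 1 / (s - 1)) * conj (DD a s' + 1 / (s' - 1)))

/-- (E4), 120 lines, from E2 and E3: `T^{-2} ∫∫ SS^K = ∑_{m ∈ ℤ^K} |T^{-1} ∫ ∏ rr m_i|²`, dominated by `∑ ∏ C² w(m_i)²`; termwise the
limit is `1` for `m = (-1, …, -1)` and `0` otherwise (`T^{-1} ∫_T^{2T} N^{it} dt → 0` for `N ≥ 2`).  Or: `SS - ζ(2 - 2σ - i(t - t'))`
tends to `0` uniformly, and the same for the product. -/
def S_E4 : Prop := ∀ (σ : ℝ) (K : ℕ), 0 < σ → σ < 1 / 2 →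
  Tendsto (fun T : ℝ => (1 / T ^ 2 : ℂ) * ∫ t in T..(2 * T), ∫ t' in T..(2 * T), SS σ t t' ^ K) atTop (𝓝 1)

/-- (E5), 150 lines, from KB, E2, E4.  `h_T(α) = T^{-1} ∫_T^{2T} ∏ (DD (α_i) s + 1/(s-1)) / cc (-1) s ^ k dt` tends in `L²(cube)` to
`∏ e(-α_i)` (Fubini: `‖h_T - e‖² = T^{-2} ∫∫ SS^k - 1`), so a subsequence converges almost everywhere, hence `|h_{T_j}(α)| ≥ 1/2`, and
Cauchy-Schwarz with `|cc (-1) s| ≥ c t^{1/2-σ}` (E1). -/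
def S_E5 : Prop := ∀ (k : ℕ) (σ : ℝ), 0 < σ → σ < 1 / 2 → ∃ c : ℝ, 0 < c ∧ ∀ᵐ α ∂(volume.restrict (cube k)), ∀ M : ℝ, ∃ T : ℝ, M ≤ T ∧ 1 ≤ T ∧
  c * T ^ (1 + k * (1 - 2 * σ)) ≤ ∫ t in T..(2 * T), ‖∏ i, (DD (α i) (ln σ t) + 1 / (ln σ t - 1))‖ ^ 2

/-- (E7), 150 lines, from TR, PM, DAN.  `g(u) = cnt(e^u) - e^u Q(u)` (`u ≥ 0`): `∫_0^∞ |g|² e^{-2σ'u} du < ∞` for `σ' > b`, so the Laplace
transform `H` of `g` converges absolutely and is holomorphic for `Re s > σ'`; it is `ZZ - RR Q` for `Re s > 3/2`, hence for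
`Re s > σ'`, `s ≠ 1` (identity theorem); Plancherel on `Re s = σ` and `|RR Q s| ≤ C/|t|` (`RR_le` in `GS/Asm.lean`; compare
`J4H77/PE/{Pl,Beta,Cont2}.lean`, `fs`, `fs_int` in `GS/Ms.lean`). -/
def S_E7 : Prop := ∀ (k : ℕ) (β : Fin k → ℝ) (Q : ℝ[X]) (b σ C : ℝ), 1 ≤ k → β ∈ cube k → 0 < σ → σ < 1 / 2 → b < σ →
  (∀ X : ℝ, 1 ≤ X → ∫ x in (1 : ℝ)..X, ((cnt k β x : ℝ) - x * Q.eval (Real.log x)) ^ 2 ≤ C * X ^ (1 + 2 * b)) →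
  ∫⁻ t in {t : ℝ | 1 ≤ |t|}, ‖ZZ k β (ln σ t)‖ₑ ^ 2 < ⊤

/-- (LOW): the lower bound (assembly from E5, E7: helper38) -/
def S_LOW : Prop := ∀ k : ℕ, 2 ≤ k → ∀ᵐ α ∂(volume.restrict (cube k)), ∀ (Q : ℝ[X]) (b : ℝ), b < ((k : ℝ) - 1) / (2 * k) →
  ¬ ∃ C : ℝ, ∀ X : ℝ, 1 ≤ X → ∫ x in (1 : ℝ)..X, ((cnt k α x : ℝ) - x * Q.eval (Real.log x)) ^ 2 ≤ C * X ^ (1 + 2 * b)

end

end Pool.Agent.J4H38.GS
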