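import Pool.Agent.J4H38.GS.E7

/-!
# Project GS (E7): end
-/

set_option autoImplicit false

open MeasureTheory Set Filter Polynomial Topology
open scoped FourierTransform

namespace Pool.Agent.J4H38.GS

noncomputable section

/-- the Laplace transform -/
def MM (g : ℝ → ℂ) (s : ℂ) : ℂ := ∫ u in Ioi (0 : ℝ), g u * Complex.exp (-s * u)

variable {g : ℝ → ℂ}

/-- absolute convergence to the right of `a` -/
def CV (g : ℝ → ℂ) (a : ℝ) : Prop :=
  ∀ σ : ℝ, a < σ → IntegrableOn (fun u : ℝ => ‖g u‖ * Real.exp (-σ * u)) (Ioi 0)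

lemma int_exp {a : ℝ} (ha : 0 < a) : IntegrableOn (fun u : ℝ => Real.exp (-a * u)) (Ioi 0) := exp_neg_integrableOn_Ioi 0 ha

lemma CV_of_L2 (hm : Measurable g) {a : ℝ} (h : ∫⁻ u : ℝ, ‖fs g a u‖ₑ ^ 2 < ⊤) : CV g a := by
  intro σ hσ
  have hmf : Measurable (fs g a) := by
    unfold fs
    fun_prop
  have hmem : MemLp (fs g a) 2 := by
    refine ⟨hmf.aestronglyMeasurable, ?_⟩
    rw [eLpNorm_lt_top_iff_lintegral_rpow_enorm_lt_top (by norm_num) (by norm_num)]
    simpa using h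
  have h1 : Integrable (fun u => ‖fs g a u‖ ^ 2) := hmem.integrable_norm_pow (by norm_num)
  have h2 : IntegrableOn (fun u : ℝ => Real.exp (-(2 * (σ - a)) * u)) (Ioi 0) := int_exp (by linarith)
  refine Integrable.mono' (h1.integrableOn.add h2) ?_ ?_
  · exact Measurable.aestronglyMeasurable (by fun_prop)
  · refine Eventually.of_forall fun u => ?_
    rw [Real.norm_eq_abs, abs_mul, abs_of_nonneg (norm_nonneg _), abs_of_pos (Real.exp_pos _), Pi.add_apply, fs_norm]
    have e1 : ‖g u‖ * Real.exp (-σ * u) = (‖g u‖ * Real.exp (-a * u)) * Real.exp (-(σ - a) * u) := by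
      rw [mul_assoc, ← Real.exp_add]; ring_nf
    have e2 : Real.exp (-(2 * (σ - a)) * u) = Real.exp (-(σ - a) * u) ^ 2 := by
      rw [← Real.exp_nat_mul]; ring_nf
    rw [e1, e2]
    nlinarith [sq_nonneg (‖g u‖ * Real.exp (-a * u) - Real.exp (-(σ - a) * u)),
      sq_nonneg (‖g u‖ * Real.exp (-a * u)), sq_nonneg (Real.exp (-(σ - a) * u))]

lemma norm_cx (s : ℂ) (u : ℝ) : ‖Complex.exp (-s * u)‖ = Real.exp (-s.re * u) := by
  rw [Complex.norm_exp]
  congr 1
  simp

lemma CV_int (hm : Measurable g) {a : ℝ} (h : CV g a) {s : ℂ} (hs : a < s.re) :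
    IntegrableOn (fun u : ℝ => g u * Complex.exp (-s * u)) (Ioi 0) := by
  refine Integrable.mono' (h s.re hs) (Measurable.aestronglyMeasurable (by fun_prop)) ?_
  refine Eventually.of_forall fun u => ?_
  rw [norm_mul, norm_cx]

lemma MM_diff (hm : Measurable g) {a : ℝ} (h : CV g a) {s : ℂ} (hs : a < s.re) : DifferentiableAt ℂ (MM g) s := by
  obtain ⟨δ, hδ⟩ : ∃ δ, δ = (s.re - a) / 3 := ⟨_, rfl⟩
  have hδ0 : 0 < δ := by rw [hδ]; linarith
  have hd := hasDerivAt_integral_of_dominated_loc_of_deriv_le (μ := volume.restrict (Ioi (0 : ℝ)))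
    (F := fun (z : ℂ) (u : ℝ) => g u * Complex.exp (-z * u))
    (F' := fun (z : ℂ) (u : ℝ) => g u * (-u * Complex.exp (-z * u)))
    (x₀ := s) (s := Metric.ball s δ) (bound := fun u => 1 / δ * (‖g u‖ * Real.exp (-(s.re - 2 * δ) * u)))
    (Metric.ball_mem_nhds s hδ0) ?_ ?_ ?_ ?_ ?_ ?_
  · exact hd.2.differentiableAt
  · exact Eventually.of_forall fun z => Measurable.aestronglyMeasurable (by fun_prop)
  · exact CV_int hm h hs
  · exact Measurable.aestronglyMeasurable (by fun_prop)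
  · rw [ae_restrict_iff' measurableSet_Ioi]
    refine Eventually.of_forall fun u hu z hz => ?_
    have hu0 : (0 : ℝ) < u := mem_Ioi.1 hu
    rw [norm_mul, norm_mul, norm_cx, norm_neg, Complex.norm_real, Real.norm_eq_abs, abs_of_pos hu0]
    have h1 : s.re - δ ≤ z.re := by
      have h2 := Complex.abs_re_le_norm (z - s)
      rw [Metric.mem_ball, dist_eq_norm] at hz
      rw [Complex.sub_re] at h2
      linarith [(abs_le.1 h2).1]
    have h3 : u * Real.exp (-z.re * u) ≤ 1 / δ * Real.exp (-(s.re - 2 * δ) * u) := by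
      have h4 : δ * u ≤ Real.exp (δ * u) := by linarith [Real.add_one_le_exp (δ * u)]
      calc u * Real.exp (-z.re * u) ≤ (1 / δ * Real.exp (δ * u)) * Real.exp (-(s.re - δ) * u) := by
            apply mul_le_mul
            · rw [div_mul_eq_mul_div, le_div_iff₀ hδ0]
              linarith
            · apply Real.exp_le_exp.2
              nlinarith
            · positivity
            · positivity
        _ = 1 / δ * Real.exp (-(s.re - 2 * δ) * u) := by
            rw [mul_assoc, ← Real.exp_add]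
            ring_nf
    calc ‖g u‖ * (u * Real.exp (-z.re * u)) ≤ ‖g u‖ * (1 / δ * Real.exp (-(s.re - 2 * δ) * u)) := by gcongr
      _ = _ := by ring
  · refine (h (s.re - 2 * δ) ?_).const_mul _
    rw [hδ]
    linarith
  · refine Eventually.of_forall fun u z _ => ?_
    have h1 : HasDerivAt (fun z : ℂ => -z * (u : ℂ)) (-u) z := by
      have := ((hasDerivAt_id z).neg).mul_const (u : ℂ)
      simpa using this
    have h2 := h1.cexp.const_mul (g u)
    refine h2.congr_deriv ?_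
    ring

lemma fs_int' (hm : Measurable g) (h0 : ∀ u : ℝ, u < 0 → g u = 0) {a : ℝ} (h : CV g a) {σ : ℝ} (hσ : a < σ) :
    Integrable (fs g σ) := by
  have h1 : IntegrableOn (fs g σ) (Ioi 0) := by
    refine Integrable.mono' (h σ hσ) (Measurable.aestronglyMeasurable (by unfold fs; fun_prop)) ?_
    exact Eventually.of_forall fun u => (fs_norm σ u).le
  rw [← integrable_indicator_iff measurableSet_Ioi] at h1
  refine h1.congr ?_
  filter_upwards [ne_zero_ae] with u hu
  rcases lt_or_gt_of_ne hu with h2 | h2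
  · rw [indicator_of_notMem (by simpa using h2.le)]
    unfold fs
    rw [h0 u h2]
    simp
  · rw [indicator_of_mem (by simpa using h2)]

lemma fs_four (h0 : ∀ u : ℝ, u < 0 → g u = 0) (σ ξ : ℝ) :
    𝓕 (fs g σ) ξ = MM g (σ + (2 * Real.pi * ξ : ℝ) * Complex.I) := by
  rw [Real.fourier_eq']
  unfold MM
  rw [← integral_indicator measurableSet_Ioi]
  apply integral_congr_ae
  filter_upwards [ne_zero_ae] with u hu
  rcases lt_or_gt_of_ne hu with h1 | h1
  · rw [indicator_of_notMem (by simpa using h1.le)]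
    unfold fs
    rw [h0 u h1]
    simp
  · rw [indicator_of_mem (by simpa using h1)]
    unfold fs
    simp only [smul_eq_mul, RCLike.inner_apply, conj_trivial]
    rw [mul_left_comm]
    congr 1
    rw [Complex.ofReal_exp, ← Complex.exp_add]
    congr 1
    push_cast
    ring

/-- the transform is square integrable to the right -/
theorem MM_L2 (hm : Measurable g) (h0 : ∀ u : ℝ, u < 0 → g u = 0) {a : ℝ} (h : ∫⁻ u : ℝ, ‖fs g a u‖ₑ ^ 2 < ⊤) {σ : ℝ} (hσ : a < σ) :
    ∫⁻ t : ℝ, ‖MM g (σ + t * Complex.I)‖ₑ ^ 2 < ⊤ := by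
  have hcv := CV_of_L2 hm h
  have hmono : ∫⁻ u : ℝ, ‖fs g σ u‖ₑ ^ 2 ≤ ∫⁻ u : ℝ, ‖fs g a u‖ₑ ^ 2 := by
    apply lintegral_mono
    intro u
    apply ENNReal.pow_le_pow_left
    rw [enorm_le_iff_norm_le, fs_norm, fs_norm]
    rcases lt_or_ge u 0 with hu | hu
    · rw [h0 u hu]; simp
    · have h3 : Real.exp (-σ * u) ≤ Real.exp (-a * u) := by
        apply Real.exp_le_exp.2
        nlinarith
      gcongr
  have hfin := lt_of_le_of_lt hmono h
  have hmem : MemLp (fs g σ) 2 := by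
    refine ⟨Measurable.aestronglyMeasurable (by unfold fs; fun_prop), ?_⟩
    rw [eLpNorm_lt_top_iff_lintegral_rpow_enorm_lt_top (by norm_num) (by norm_num)]
    simpa using hfin
  have hpl := Pool.Agent.H153R4.plancherel (fs g σ) (fs_int' hm h0 hcv hσ) hmem
  simp_rw [fs_four h0] at hpl
  have hcont : Continuous (fun y : ℝ => MM g (σ + y * Complex.I)) :=
    Pool.Agent.E8helper52.OR.cont_line (fun z hz => MM_diff hm hcv (by rw [hz]; exact hσ))
  have hmes : Measurable (fun y : ℝ => ‖MM g (σ + y * Complex.I)‖ₑ ^ 2) := hcont.measurable.enorm.pow_const 2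
  have h1 := lintegral_map (μ := volume) hmes (measurable_const_mul (2 * Real.pi))
  rw [Real.map_volume_mul_left (by positivity), lintegral_smul_measure, hpl] at h1
  have h2 : ENNReal.ofReal |(2 * Real.pi)⁻¹| * ∫⁻ t : ℝ, ‖MM g (σ + t * Complex.I)‖ₑ ^ 2 < ⊤ := by
    have h3 : ENNReal.ofReal |(2 * Real.pi)⁻¹| * ∫⁻ t : ℝ, ‖MM g (σ + t * Complex.I)‖ₑ ^ 2 = ∫⁻ u : ℝ, ‖fs g σ u‖ₑ ^ 2 := h1
    rw [h3]
    exact hfin
  rcases ENNReal.mul_lt_top_iff.1 h2 with h3 | h3 | h3
  · exact h3.2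
  · exfalso
    rw [ENNReal.ofReal_eq_zero] at h3
    have : 0 < |(2 * Real.pi)⁻¹| := by positivity
    linarith
  · rw [h3]
    exact ENNReal.zero_lt_top

/-- the half plane without the point `1` is preconnected -/
lemma pre {a : ℝ} (ha : a < 1) : IsPreconnected {s : ℂ | a < s.re ∧ s ≠ 1} := by
  have hA : IsPreconnected ({s : ℂ | a < s.re} ∩ {s : ℂ | s.re < 1}) :=
    ((convex_halfSpace_re_gt a).inter (convex_halfSpace_re_lt 1)).isPreconnected
  have hB : IsPreconnected ({s : ℂ | a < s.re} ∩ {s : ℂ | 0 < s.im}) :=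
    ((convex_halfSpace_re_gt a).inter (convex_halfSpace_im_gt 0)).isPreconnected
  have hC : IsPreconnected ({s : ℂ | a < s.re} ∩ {s : ℂ | s.im < 0}) :=
    ((convex_halfSpace_re_gt a).inter (convex_halfSpace_im_lt 0)).isPreconnected
  have hD : IsPreconnected {s : ℂ | 1 < s.re} := (convex_halfSpace_re_gt 1).isPreconnected
  have h1 : IsPreconnected (({s : ℂ | a < s.re} ∩ {s : ℂ | 0 < s.im}) ∪ ({s : ℂ | a < s.re} ∩ {s : ℂ | s.re < 1})) :=
    IsPreconnected.union (⟨(a + 1) / 2, 1⟩ : ℂ)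
      ⟨show a < (a + 1) / 2 by linarith, show (0 : ℝ) < 1 by norm_num⟩
      ⟨show a < (a + 1) / 2 by linarith, show (a + 1) / 2 < 1 by linarith⟩ hB hA
  have h2 : IsPreconnected ((({s : ℂ | a < s.re} ∩ {s : ℂ | 0 < s.im}) ∪ ({s : ℂ | a < s.re} ∩ {s : ℂ | s.re < 1})) ∪
      ({s : ℂ | a < s.re} ∩ {s : ℂ | s.im < 0})) :=
    IsPreconnected.union (⟨(a + 1) / 2, -1⟩ : ℂ)
      (Or.inr ⟨show a < (a + 1) / 2 by linarith, show (a + 1) / 2 < 1 by linarith⟩)
      ⟨show a < (a + 1) / 2 by linarith, show (-1 : ℝ) < 0 by norm_num⟩ h1 hC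
  have h3 : IsPreconnected (((({s : ℂ | a < s.re} ∩ {s : ℂ | 0 < s.im}) ∪ ({s : ℂ | a < s.re} ∩ {s : ℂ | s.re < 1})) ∪
      ({s : ℂ | a < s.re} ∩ {s : ℂ | s.im < 0})) ∪ {s : ℂ | 1 < s.re}) :=
    IsPreconnected.union (⟨2, 1⟩ : ℂ) (Or.inl (Or.inl ⟨show a < 2 by linarith, show (0 : ℝ) < 1 by norm_num⟩))
      (show (1 : ℝ) < 2 by norm_num) h2 hD
  convert h3 using 1
  ext s
  constructor
  · rintro ⟨h4, h5⟩
    rcases lt_trichotomy s.im 0 with h6 | h6 | h6
    · exact Or.inl (Or.inr ⟨h4, h6⟩)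
    · rcases lt_trichotomy s.re 1 with h7 | h7 | h7
      · exact Or.inl (Or.inl (Or.inr ⟨h4, h7⟩))
      · exact absurd (Complex.ext (by simpa using h7) (by simpa using h6)) h5
      · exact Or.inr h7
    · exact Or.inl (Or.inl (Or.inl ⟨h4, h6⟩))
  · rintro (((⟨h4, h5⟩ | ⟨h4, h5⟩) | ⟨h4, h5⟩) | h4)
    · refine ⟨h4, fun h => ?_⟩
      rw [h] at h5
      simp at h5
    · refine ⟨h4, fun h => ?_⟩
      rw [h] at h5
      simp at h5
    · refine ⟨h4, fun h => ?_⟩
      rw [h] at h5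
      simp at h5
    · have h4' : 1 < s.re := h4
      refine ⟨show a < s.re by linarith, fun h => ?_⟩
      rw [h] at h4'
      simp at h4'

lemma RR_diff (P : ℂ[X]) {s : ℂ} (hs : s ≠ 1) : DifferentiableAt ℂ (RR P) s := by
  unfold RR Polynomial.sum
  have h : s - 1 ≠ 0 := sub_ne_zero.2 hs
  refine DifferentiableAt.fun_sum fun j _ => ?_
  refine DifferentiableAt.const_mul ?_ _
  refine DifferentiableAt.div (by fun_prop) (by fun_prop) (pow_ne_zero _ h)

lemma ZZ_diff (hDAN : S_DAN) {k : ℕ} {β : Fin k → ℝ} (hβ : ∀ i, 0 ≤ β i ∧ β i < 1) {s : ℂ} (hs0 : 0 < s.re) (hs : s ≠ 1) :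
    DifferentiableAt ℂ (ZZ k β) s := by
  unfold ZZ
  have h : s - 1 ≠ 0 := sub_ne_zero.2 hs
  have h0 : s ≠ 0 := by
    intro h
    rw [h] at hs0
    simp at hs0
  refine DifferentiableAt.div ?_ (by fun_prop) h0
  refine DifferentiableAt.fun_finsetProd fun i _ => ?_
  have h1 : DifferentiableAt ℂ (DD (β i)) s := ((hDAN (β i) (hβ i).1 (hβ i).2).1 s hs0).differentiableAt
      ((isOpen_lt continuous_const Complex.continuous_re).mem_nhds hs0)
  refine h1.add (DifferentiableAt.div (by fun_prop) (by fun_prop) h)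

theorem t_E7 (hDAN : S_DAN) (hTR : S_TR) (hPM : S_PM) : S_E7 := by
  intro k β Q b σ C hk hβ hσ hσ1 hbσ hC
  have hβ' : ∀ i, 0 ≤ β i ∧ β i < 1 := fun i => hβ i (mem_univ i)
  obtain ⟨hm, hb, ht⟩ := hTR k β hβ
  obtain ⟨a, ha⟩ : ∃ a, a = (max b 0 + σ) / 2 := ⟨_, rfl⟩
  have hmax : max b 0 < σ := max_lt hbσ hσ
  have ha0 : max b 0 < a := by rw [ha]; linarith
  have haσ : a < σ := by rw [ha]; linarith
  have ha00 : 0 ≤ a := le_trans (le_max_right _ _) ha0.le
  obtain ⟨g, hg⟩ : ∃ g, g = gg k β (cp Q) := ⟨_, rfl⟩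
  have hgm : Measurable g := by rw [hg]; exact gg_meas _ hm
  have hg0 : ∀ u : ℝ, u < 0 → g u = 0 := fun u hu => by rw [hg, gg, if_pos hu]
  have hL2 : ∫⁻ u : ℝ, ‖fs g a u‖ₑ ^ 2 < ⊤ := by
    rw [hg]
    exact L2_of_beta (fun i => (hβ' i).1) Q (lt_of_le_of_lt (le_max_left _ _) ha0) hC ha00
  have hcv := CV_of_L2 hgm hL2
  have hfin := MM_L2 hgm hg0 hL2 haσ
  -- the identity to the right
  have hright : ∀ s : ℂ, 3 / 2 < s.re → MM g s = ZZ k β s - RR (cp Q) s := by
    intro s hs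
    obtain ⟨hP1, hP2⟩ := hPM (cp Q) s (by linarith)
    obtain ⟨C', hC', h⟩ := hb
    have hi : IntegrableOn (fun u : ℝ => (cnt k β (Real.exp u) : ℂ) * Complex.exp (-s * u)) (Ioi 0) := by
      refine Integrable.mono' ((expint (show (0 : ℝ) < s.re - 3 / 2 by linarith)).const_mul C') ?_ ?_
      · have h3 : Measurable (fun u : ℝ => (cnt k β (Real.exp u) : ℂ)) := by
          have : (fun u : ℝ => (cnt k β (Real.exp u) : ℂ)) =
              fun u : ℝ => (((cnt k β (Real.exp u) : ℝ)) : ℂ) := by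
            funext u
            simp
          rw [this]
          exact Complex.measurable_ofReal.comp (hm.comp Real.measurable_exp)
        have h4 : Continuous (fun u : ℝ => Complex.exp (-s * u)) := by fun_prop
        exact (h3.mul h4.measurable).aestronglyMeasurable
      · filter_upwards [ae_restrict_mem measurableSet_Ioi] with u hu
        have hu' : (0 : ℝ) < u := hu
        rw [norm_mul, Complex.norm_natCast, norm_cx]
        calc (cnt k β (Real.exp u) : ℝ) * Real.exp (-s.re * u) ≤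
              (C' * Real.exp u ^ (3 / 2 : ℝ)) * Real.exp (-s.re * u) := by
                gcongr
                exact h _ (Real.one_le_exp hu'.le)
          _ = C' * Real.exp (-(s.re - 3 / 2) * u) := by
                rw [← Real.exp_mul, mul_assoc, ← Real.exp_add]
                congr 2
                ring
    have h3 : MM g s = ∫ u in Ioi (0 : ℝ), ((cnt k β (Real.exp u) : ℂ) * Complex.exp (-s * u) -
          (Real.exp u : ℂ) * (cp Q).eval (u : ℂ) * Complex.exp (-s * u)) := by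
      unfold MM
      apply setIntegral_congr_fun measurableSet_Ioi
      intro u hu
      have hu' : (0 : ℝ) < u := hu
      simp only [hg, gg, if_neg (not_lt.2 hu'.le)]
      ring
    rw [h3, integral_sub hi hP1, ht s hs, hP2]
  have ha1 : a < 1 := by linarith
  have hUo : IsOpen {s : ℂ | a < s.re ∧ s ≠ 1} :=
    (isOpen_lt continuous_const Complex.continuous_re).inter isOpen_compl_singleton
  have hf1 : AnalyticOnNhd ℂ (MM g) {s : ℂ | a < s.re ∧ s ≠ 1} :=
    DifferentiableOn.analyticOnNhd (fun s hs => (MM_diff hgm hcv hs.1).differentiableWithinAt) hUo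
  have hf2 : AnalyticOnNhd ℂ (fun s => ZZ k β s - RR (cp Q) s) {s : ℂ | a < s.re ∧ s ≠ 1} := by
    refine DifferentiableOn.analyticOnNhd (fun s hs => ?_) hUo
    exact ((ZZ_diff hDAN hβ' (lt_of_le_of_lt ha00 hs.1) hs.2).sub (RR_diff _ hs.2)).differentiableWithinAt
  have h2mem : (2 : ℂ) ∈ {s : ℂ | a < s.re ∧ s ≠ 1} := by
    refine ⟨?_, by norm_num⟩
    show a < (2 : ℂ).re
    simp
    linarith
  have hev : MM g =ᶠ[𝓝 2] (fun s => ZZ k β s - RR (cp Q) s) := by
    have h2 : {s : ℂ | 3 / 2 < s.re} ∈ 𝓝 (2 : ℂ) :=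
      (isOpen_lt continuous_const Complex.continuous_re).mem_nhds (by simp; norm_num)
    filter_upwards [h2] with s hs
    exact hright s hs
  have hall : EqOn (MM g) (fun s => ZZ k β s - RR (cp Q) s) {s : ℂ | a < s.re ∧ s ≠ 1} :=
    hf1.eqOn_of_preconnected_of_eventuallyEq hf2 (pre ha1) h2mem hev
  -- the line
  have hms : MeasurableSet {t : ℝ | 1 ≤ |t|} := measurableSet_le measurable_const (by fun_prop)
  obtain ⟨C1, hC1, hR⟩ := RR_le (cp Q)
  have hsq : ∫⁻ t in {t : ℝ | 1 ≤ |t|}, ENNReal.ofReal (C1 / |t|) ^ 2 < ⊤ := by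
    have h1 : ∀ t ∈ {t : ℝ | 1 ≤ |t|}, ENNReal.ofReal (C1 / |t|) ^ 2 ≤
        ENNReal.ofReal (2 * C1 ^ 2 * (1 + t ^ 2)⁻¹) := by
      intro t ht
      have ht' : 1 ≤ |t| := ht
      have ht2 : 1 ≤ t ^ 2 := by
        rw [← sq_abs]
        nlinarith
      rw [← ENNReal.ofReal_pow (by positivity)]
      apply ENNReal.ofReal_le_ofReal
      rw [div_pow, sq_abs, div_le_iff₀ (by positivity)]
      have h2 : (1 : ℝ) ≤ 2 * ((1 + t ^ 2)⁻¹ * t ^ 2) := by
        rw [← mul_assoc, mul_comm (2 : ℝ), mul_assoc, inv_mul_eq_div, le_div_iff₀ (by positivity)]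
        linarith
      nlinarith [sq_nonneg C1]
    refine lt_of_le_of_lt (setLIntegral_mono' hms h1) ?_
    refine lt_of_le_of_lt (setLIntegral_le_lintegral _ _) ?_
    exact (integrable_inv_one_add_sq.const_mul (2 * C1 ^ 2)).lintegral_lt_top
  have h3 : ∀ t ∈ {t : ℝ | 1 ≤ |t|}, ‖ZZ k β (ln σ t)‖ₑ ^ 2 ≤
      4 * (‖MM g (σ + t * Complex.I)‖ₑ ^ 2 + ENNReal.ofReal (C1 / |t|) ^ 2) := by
    intro t ht'
    have ht1 : 1 ≤ |t| := ht'
    have hne : (σ : ℂ) + t * Complex.I ≠ 1 := by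
      intro h
      have h4 := congrArg Complex.im h
      simp at h4
      rw [h4] at ht1
      simp at ht1
      linarith
    have h4 : ZZ k β (ln σ t) = MM g (σ + t * Complex.I) + RR (cp Q) (σ + t * Complex.I) := by
      have h5 := hall (x := (σ : ℂ) + t * Complex.I) ⟨by simpa using haσ, hne⟩
      rw [h5, ln]
      simp
    have h5 : ‖RR (cp Q) (σ + t * Complex.I)‖ ≤ C1 / |t| := by
      have := hR (σ + t * Complex.I) (by simpa using ht1)
      simpa using this
    have h6 : ‖ZZ k β (ln σ t)‖ₑ ≤ ‖MM g (σ + t * Complex.I)‖ₑ + ENNReal.ofReal (C1 / |t|) := by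
      rw [h4]
      refine (enorm_add_le _ _).trans ?_
      gcongr
      rw [← ofReal_norm]
      exact ENNReal.ofReal_le_ofReal h5
    refine (ENNReal.pow_le_pow_left h6 (n := 2)).trans ?_
    exact enn_sq _ _
  refine lt_of_le_of_lt (setLIntegral_mono' hms h3) ?_
  rw [lintegral_const_mul' _ _ (by norm_num), lintegral_add_right _ (by fun_prop)]
  exact ENNReal.mul_lt_top (by norm_num) (ENNReal.add_lt_top.2 ⟨lt_of_le_of_lt (setLIntegral_le_lintegral _ _) hfin, hsq⟩)

end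

end Pool.Agent.J4H38.GS
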