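import Pool.Agent.J4H38.GS.Stm4

/-! Project GS4, L3: growth of the periodic zeta function. -/

set_option autoImplicit false

open MeasureTheory Set Filter Topology

namespace Pool.Agent.J4H38.GS

noncomputable section

namespace L3

/-- the transform of a bounded function -/
def TR (A : ℝ → ℂ) (s : ℂ) : ℂ := s * ∫ y in Ioi (1 : ℝ), A y * (y : ℂ) ^ (-s - 1)

theorem TR_diff {A : ℝ → ℂ} (hA : Measurable A) {M : ℝ} (hM : ∀ y, ‖A y‖ ≤ M) :
    DifferentiableOn ℂ (TR A) {s : ℂ | 0 < s.re} := by
  intro s hs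
  rw [mem_ofPred_eq] at hs
  have hM0 : 0 ≤ M := (norm_nonneg _).trans (hM 0)
  set g : ℝ → ℂ := indicator (Ioi 1) A with hg
  have hgm : Measurable g := hA.indicator measurableSet_Ioi
  have hgb : ∀ y, ‖g y‖ ≤ M := fun y => by
    rw [hg]
    exact (norm_indicator_le_norm_self _ _).trans (hM y)
  have h1 : ∀ s : ℂ, TR A s = s * mellin g (-s) := by
    intro s
    unfold TR mellin
    congr 1
    have e1 : (fun t : ℝ => (t : ℂ) ^ (-s - 1) • g t) =
        indicator (Ioi 1) (fun y : ℝ => A y * (y : ℂ) ^ (-s - 1)) := by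
      ext t
      rw [hg]
      by_cases ht : t ∈ Ioi (1 : ℝ)
      · rw [indicator_of_mem ht, indicator_of_mem ht, smul_eq_mul, mul_comm]
      · rw [indicator_of_notMem ht, indicator_of_notMem ht, smul_zero]
    rw [e1, setIntegral_indicator measurableSet_Ioi]
    congr 2
    ext x
    simp only [mem_inter_iff, mem_Ioi]
    constructor
    · intro h; exact ⟨by linarith, h⟩
    · intro h; exact h.2
  have h2 : DifferentiableAt ℂ (mellin g) (-s) := by
    apply mellin_differentiableAt_of_isBigO_rpow (a := 0) (b := (-s).re - 1)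
    · have : LocallyIntegrable g volume := by
        rw [locallyIntegrable_iff]
        intro K hK
        exact Measure.integrableOn_of_bounded (M := M) hK.measure_lt_top.ne
          hgm.aestronglyMeasurable (Eventually.of_forall hgb)
      exact this.locallyIntegrableOn _
    · simp only [neg_zero, Real.rpow_zero]
      exact Asymptotics.IsBigO.of_bound M (Eventually.of_forall fun y => by
        rw [norm_one, mul_one]; exact hgb y)
    · simp; exact hs
    · apply Asymptotics.IsBigO.of_bound 1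
      have : ∀ᶠ x in nhdsWithin (0 : ℝ) (Ioi 0), x < 1 :=
        eventually_nhdsWithin_of_eventually_nhds (eventually_lt_nhds one_pos)
      filter_upwards [this] with x hx
      rw [hg, indicator_of_notMem (by simp; exact hx.le), norm_zero]
      positivity
    · linarith
  have h3 : DifferentiableAt ℂ (fun s : ℂ => s * mellin g (-s)) s := by
    have h5 : DifferentiableAt ℂ (mellin g ∘ fun s : ℂ => -s) s :=
      DifferentiableAt.comp (g := mellin g) (f := fun s : ℂ => -s) s h2 differentiableAt_id.neg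
    exact differentiableAt_id.mul h5
  have h4 : TR A = fun s : ℂ => s * mellin g (-s) := funext h1
  rw [h4]
  exact h3.differentiableWithinAt

theorem TR_le {A : ℝ → ℂ} {M : ℝ} (hM : ∀ y, ‖A y‖ ≤ M) {s : ℂ} (hs : 0 < s.re) : ‖TR A s‖ ≤ M * ‖s‖ / s.re := by
  have hM0 : 0 ≤ M := (norm_nonneg _).trans (hM 0)
  unfold TR
  rw [norm_mul]
  have h1 : ‖∫ y in Ioi (1 : ℝ), A y * (y : ℂ) ^ (-s - 1)‖ ≤ ∫ y in Ioi (1 : ℝ), M * y ^ (-s.re - 1) := by
    apply norm_integral_le_of_norm_le
    · exact (integrableOn_Ioi_rpow_of_lt (by linarith) one_pos).const_mul M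
    · filter_upwards [ae_restrict_mem measurableSet_Ioi] with y hy
      rw [mem_Ioi] at hy
      rw [norm_mul, Complex.norm_cpow_eq_rpow_re_of_pos (by linarith)]
      have h2 : (-s - 1).re = -s.re - 1 := by simp
      rw [h2]
      exact mul_le_mul_of_nonneg_right (hM y) (Real.rpow_nonneg (by linarith) _)
  rw [integral_const_mul, integral_Ioi_rpow_of_lt (by linarith) one_pos] at h1
  have h3 : -s.re - 1 + 1 = -s.re := by ring
  rw [h3, Real.one_rpow, neg_div_neg_eq, mul_one_div] at h1
  calc ‖s‖ * _ ≤ ‖s‖ * (M / s.re) := mul_le_mul_of_nonneg_left h1 (norm_nonneg _)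
    _ = _ := by ring

/-- `e(an)` -/
def ea (a : ℝ) (n : ℕ) : ℂ := Complex.exp (2 * Real.pi * Complex.I * a * n)

theorem ea_pow (a : ℝ) (n : ℕ) : ea a n = ea a 1 ^ n := by
  unfold ea
  rw [← Complex.exp_nat_mul]
  congr 1
  push_cast
  ring

theorem ea_norm (a : ℝ) (n : ℕ) : ‖ea a n‖ = 1 := by
  unfold ea
  rw [Complex.norm_exp]
  have : (2 * Real.pi * Complex.I * a * n : ℂ).re = 0 := by simp
  rw [this, Real.exp_zero]

theorem sum_bd {a : ℝ} (h : ea a 1 ≠ 1) (n : ℕ) : ‖∑ k ∈ Finset.Icc 1 n, ea a k‖ ≤ 2 / ‖ea a 1 - 1‖ := by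
  have h0 : 0 < ‖ea a 1 - 1‖ := norm_pos_iff.2 (sub_ne_zero.2 h)
  have e1 : ∑ k ∈ Finset.Icc 1 n, ea a k = ea a 1 * ((ea a 1 ^ n - 1) / (ea a 1 - 1)) := by
    rw [← geom_sum_eq h, Finset.mul_sum, ← Finset.Ico_add_one_right_eq_Icc, Finset.sum_Ico_eq_sum_range]
    refine Finset.sum_congr (by simp) fun k _ => ?_
    rw [ea_pow, pow_add, pow_one]
  rw [e1, norm_mul, ea_norm, one_mul, norm_div]
  refine div_le_div_of_nonneg_right ?_ h0.le
  refine (norm_sub_le _ _).trans ?_
  rw [norm_pow, ea_norm, one_pow, norm_one]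
  norm_num

end L3

open L3 in
theorem t_L3 (hDAN : S_DAN) (hHUR : S_HUR) : S_L3 := by
  intro a
  by_cases ha : (a : UnitAddCircle) = 0
  · -- the Riemann zeta function
    rw [ha, HurwitzZeta.expZeta_zero]
    have hR : ∀ s : ℂ, 1 < s.re → riemannZeta s = DD 0 s + 1 / (s - 1) := by
      intro s hs
      rw [zeta_eq_tsum_one_div_nat_add_one_cpow hs]
      rw [← (hHUR 0 le_rfl one_pos s hs).tsum_eq]
      refine tsum_congr fun n => ?_
      rw [Complex.cpow_neg, one_div]
      push_cast
      simp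
    have hU : ∀ s : ℂ, 0 < s.re → 0 < s.im → riemannZeta s = DD 0 s + 1 / (s - 1) := by
      have hopen : IsOpen {s : ℂ | 0 < s.re ∧ 0 < s.im} :=
        (isOpen_lt continuous_const Complex.continuous_re).inter (isOpen_lt continuous_const Complex.continuous_im)
      have hconv : Convex ℝ {s : ℂ | 0 < s.re ∧ 0 < s.im} :=
        (convex_halfSpace_re_gt 0).inter (convex_halfSpace_im_gt 0)
      have hne : ∀ s : ℂ, 0 < s.im → s ≠ 1 := by
        intro s hs h1
        rw [h1] at hs
        simp at hs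
      have f1 : AnalyticOnNhd ℂ riemannZeta {s : ℂ | 0 < s.re ∧ 0 < s.im} := by
        refine DifferentiableOn.analyticOnNhd (fun s hs => ?_) hopen
        exact (differentiableAt_riemannZeta (hne s hs.2)).differentiableWithinAt
      have f2 : AnalyticOnNhd ℂ (fun s => DD 0 s + 1 / (s - 1)) {s : ℂ | 0 < s.re ∧ 0 < s.im} := by
        refine DifferentiableOn.analyticOnNhd (fun s hs => ?_) hopen
        have g1 : DifferentiableAt ℂ (DD 0) s := ((hDAN 0 le_rfl one_pos).1 s hs.1).differentiableAt
          ((isOpen_lt continuous_const Complex.continuous_re).mem_nhds hs.1)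
        have g2 : DifferentiableAt ℂ (fun s : ℂ => 1 / (s - 1)) s :=
          (differentiableAt_const _).div (differentiableAt_id.sub_const 1) (sub_ne_zero.2 (hne s hs.2))
        exact (g1.add g2).differentiableWithinAt
      have hz : (2 + Complex.I : ℂ) ∈ {s : ℂ | 0 < s.re ∧ 0 < s.im} := by
        constructor <;> simp
      have hev : riemannZeta =ᶠ[𝓝 (2 + Complex.I)] (fun s => DD 0 s + 1 / (s - 1)) := by
        have : ∀ᶠ s : ℂ in 𝓝 (2 + Complex.I), 1 < s.re :=
          (isOpen_lt continuous_const Complex.continuous_re).mem_nhds (by simp)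
        filter_upwards [this] with s hs
        exact hR s hs
      intro s h1 h2
      exact f1.eqOn_of_preconnected_of_eventuallyEq f2 hconv.isPreconnected hz hev ⟨h1, h2⟩
    refine ⟨3, by norm_num, fun w hw hi => ?_⟩
    rw [hU w (by linarith) (by linarith)]
    have h1 := (hDAN 0 le_rfl one_pos).2 w (by linarith)
    have h2 : ‖w‖ / w.re ≤ 2 * ‖w‖ := by
      rw [div_le_iff₀ (by linarith)]
      nlinarith [norm_nonneg w]
    have h3 : 1 ≤ ‖w‖ := hi.trans ((le_abs_self _).trans (Complex.abs_im_le_norm w))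
    have h4 : 1 ≤ ‖w - 1‖ := by
      have := Complex.abs_im_le_norm (w - 1)
      simp only [Complex.sub_im, Complex.one_im, sub_zero] at this
      exact hi.trans ((le_abs_self _).trans this)
    have h5 : ‖1 / (w - 1)‖ ≤ 1 := by
      rw [norm_div, norm_one, div_le_one (by linarith)]
      exact h4
    refine (norm_add_le _ _).trans ?_
    linarith
  · -- the other ones
    have h1 : ea a 1 ≠ 1 := by
      intro h
      apply ha
      unfold ea at h
      rw [Complex.exp_eq_one_iff] at h
      obtain ⟨n, hn⟩ := h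
      have h2 : (a : ℂ) = n := by
        have hp : (2 * Real.pi * Complex.I : ℂ) ≠ 0 := by simp [Real.pi_ne_zero]
        have : (2 * Real.pi * Complex.I : ℂ) * a = (2 * Real.pi * Complex.I : ℂ) * n := by
          rw [Nat.cast_one, mul_one] at hn
          rw [hn]
          ring
        exact mul_left_cancel₀ hp this
      have h3 : a = n := by exact_mod_cast h2
      rw [h3]
      exact (AddCircle.coe_eq_zero_iff 1).2 ⟨n, by simp⟩
    obtain ⟨A, hAd⟩ : ∃ A : ℝ → ℂ, A = fun y => ∑ k ∈ Finset.Icc 1 ⌊y⌋₊, ea a k := ⟨_, rfl⟩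
    have hAb : ∀ y, ‖A y‖ ≤ 2 / ‖ea a 1 - 1‖ := fun y => by
      rw [hAd]
      exact sum_bd h1 _
    have hAm : Measurable A := by
      rw [hAd]
      exact (measurable_from_nat (f := fun n : ℕ => ∑ k ∈ Finset.Icc 1 n, ea a k)).comp Nat.measurable_floor
    have hgt : ∀ s : ℂ, 1 < s.re → HurwitzZeta.expZeta (a : UnitAddCircle) s = TR A s := by
      intro s hs
      have g1 := HurwitzZeta.LSeriesHasSum_exp a hs
      have g2 := LSeries_eq_mul_integral (fun n : ℕ => Complex.exp (2 * Real.pi * Complex.I * a * n)) (r := 0) le_rfl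
        (s := s) (by linarith) g1.LSeriesSummable (by
          refine Asymptotics.IsBigO.of_bound (2 / ‖ea a 1 - 1‖) (Eventually.of_forall fun n => ?_)
          simp only [Real.rpow_zero, norm_one, mul_one]
          exact sum_bd h1 n)
      rw [← g1.LSeries_eq, g2, TR, hAd]
      congr 1
      refine setIntegral_congr_fun measurableSet_Ioi fun t _ => ?_
      simp only [ea]
      congr 2
      ring
    have hopen : IsOpen {s : ℂ | 0 < s.re} := isOpen_lt continuous_const Complex.continuous_re
    have f1 : AnalyticOnNhd ℂ (HurwitzZeta.expZeta (a : UnitAddCircle)) {s : ℂ | 0 < s.re} :=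
      DifferentiableOn.analyticOnNhd (HurwitzZeta.differentiable_expZeta_of_ne_zero ha).differentiableOn hopen
    have f2 : AnalyticOnNhd ℂ (TR A) {s : ℂ | 0 < s.re} := DifferentiableOn.analyticOnNhd (TR_diff hAm hAb) hopen
    have hz : (2 : ℂ) ∈ {s : ℂ | 0 < s.re} := by simp
    have hev : HurwitzZeta.expZeta (a : UnitAddCircle) =ᶠ[𝓝 2] TR A := by
      have : ∀ᶠ s : ℂ in 𝓝 2, 1 < s.re := (isOpen_lt continuous_const Complex.continuous_re).mem_nhds (by simp)
      filter_upwards [this] with s hs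
      exact hgt s hs
    have hU := f1.eqOn_of_preconnected_of_eventuallyEq f2 (convex_halfSpace_re_gt 0).isPreconnected hz hev
    have hc0 : 0 ≤ 2 / ‖ea a 1 - 1‖ := by positivity
    refine ⟨2 * (2 / ‖ea a 1 - 1‖), by positivity, fun w hw hi => ?_⟩
    have hw0 : 0 < w.re := by linarith
    rw [hU hw0]
    refine (TR_le hAb hw0).trans ?_
    rw [div_le_iff₀ hw0]
    have : 0 ≤ 2 / ‖ea a 1 - 1‖ * ‖w‖ := mul_nonneg hc0 (norm_nonneg _)
    nlinarith

end

end Pool.Agent.J4H38.GS
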