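import Pool.Agent.J4H38.GS.Stm4

/-! Project GS4, L5: the lower bound on the left line by a polynomial weight. -/

set_option autoImplicit false

open MeasureTheory Set Filter Topology

namespace Pool.Agent.J4H38.GS

noncomputable section

namespace L5

theorem pow_sub {a b : ℂ} (ha : ‖a‖ ≤ 1) (hb : ‖b‖ ≤ 1) (m : ℕ) : ‖a ^ m - b ^ m‖ ≤ m * ‖a - b‖ := by
  induction m with
  | zero => simp
  | succ m ih =>
    have e : a ^ (m + 1) - b ^ (m + 1) = a * (a ^ m - b ^ m) + (a - b) * b ^ m := by ring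
    rw [e]
    have h1 : ‖b ^ m‖ ≤ 1 := by
      rw [norm_pow]
      exact pow_le_one₀ (norm_nonneg _) hb
    calc _ ≤ ‖a * (a ^ m - b ^ m)‖ + ‖(a - b) * b ^ m‖ := norm_add_le _ _
      _ ≤ 1 * (m * ‖a - b‖) + ‖a - b‖ * 1 := by
          rw [norm_mul, norm_mul]
          gcongr
      _ = _ := by push_cast; ring

/-- the weight -/
def q (T : ℝ) (w : ℂ) : ℂ := -((w - T * Complex.I) * (2 * T * Complex.I - w)) / T ^ 2

/-- its main part -/
def v (T t : ℝ) : ℝ := (t / T - 1) * (2 - t / T)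

theorem q_sub {T : ℝ} (hT : 0 < T) (y t : ℝ) : q T ((y : ℂ) + t * Complex.I) - (v T t : ℝ) =
    (((y ^ 2 / T ^ 2 : ℝ) : ℂ) - ((y * (3 * T - 2 * t) / T ^ 2 : ℝ) : ℂ) * Complex.I) := by
  have hT' : (T : ℂ) ≠ 0 := by exact_mod_cast hT.ne'
  unfold q v
  push_cast
  field_simp
  ring_nf
  rw [Complex.I_sq]
  ring

theorem v_mem {T t : ℝ} (hT : 0 < T) (h1 : T ≤ t) (h2 : t ≤ 2 * T) : 0 ≤ v T t ∧ v T t ≤ 1 / 4 := by
  have a1 : 1 ≤ t / T := by rw [le_div_iff₀ hT]; linarith
  have a2 : t / T ≤ 2 := by rw [div_le_iff₀ hT]; linarith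
  unfold v
  constructor
  · exact mul_nonneg (by linarith) (by linarith)
  · nlinarith [sq_nonneg (t / T - 3 / 2)]

theorem q_sub_le {T κ y t : ℝ} (hκ : 0 < κ) (hT : 8 * κ ≤ T) (hy : 0 ≤ y) (hyκ : y ≤ κ) (h1 : T ≤ t) (h2 : t ≤ 2 * T) :
    ‖q T ((y : ℂ) + t * Complex.I) - (v T t : ℝ)‖ ≤ 2 * κ / T := by
  have hT0 : 0 < T := by linarith
  rw [q_sub hT0]
  refine (norm_sub_le _ _).trans ?_
  rw [norm_mul, Complex.norm_I, mul_one, Complex.norm_real, Complex.norm_real, Real.norm_eq_abs, Real.norm_eq_abs,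
    abs_of_nonneg (by positivity), abs_div, abs_of_pos (by positivity : 0 < T ^ 2), abs_mul, abs_of_nonneg hy]
  have h3 : |3 * T - 2 * t| ≤ T := by
    rw [abs_le]
    constructor <;> linarith
  have h4 : y * |3 * T - 2 * t| ≤ κ * T := mul_le_mul hyκ h3 (abs_nonneg _) hκ.le
  have h5 : y ^ 2 ≤ κ * T := by
    nlinarith
  rw [← add_div, div_le_div_iff₀ (by positivity) hT0]
  nlinarith [mul_pos hκ hT0]

theorem q_le {T κ y t : ℝ} (hκ : 0 < κ) (hT : 8 * κ ≤ T) (hy : 0 ≤ y) (hyκ : y ≤ κ) (h1 : T ≤ t) (h2 : t ≤ 2 * T) :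
    ‖q T ((y : ℂ) + t * Complex.I)‖ ≤ 1 := by
  have hT0 : 0 < T := by linarith
  have h3 := q_sub_le hκ hT hy hyκ h1 h2
  obtain ⟨h4, h5⟩ := v_mem hT0 h1 h2
  have h6 : ‖((v T t : ℝ) : ℂ)‖ ≤ 1 / 4 := by
    rw [Complex.norm_real, Real.norm_of_nonneg h4]
    exact h5
  have h7 : 2 * κ / T ≤ 1 / 4 := by
    rw [div_le_iff₀ hT0]
    linarith
  calc _ = ‖(q T ((y : ℂ) + t * Complex.I) - (v T t : ℝ)) + (v T t : ℝ)‖ := by rw [sub_add_cancel]
    _ ≤ _ := (norm_add_le _ _).trans (by linarith)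

theorem q_side {T κ y t : ℝ} (hκ : 0 < κ) (hT : 8 * κ ≤ T) (hy : 0 ≤ y) (hyκ : y ≤ κ) (ht : t = T ∨ t = 2 * T) :
    ‖q T ((y : ℂ) + t * Complex.I)‖ ≤ 2 * κ / T := by
  have hT0 : 0 < T := by linarith
  have h0 : v T t = 0 := by
    unfold v
    rcases ht with h | h
    · rw [h, div_self hT0.ne']; ring
    · rw [h, mul_div_assoc, div_self hT0.ne']; ring
  have h1 : T ≤ t ∧ t ≤ 2 * T := by
    rcases ht with h | h
    · rw [h]; constructor <;> linarith
    · rw [h]; constructor <;> linarith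
  have := q_sub_le hκ hT hy hyκ h1.1 h1.2
  rwa [h0, Complex.ofReal_zero, sub_zero] at this

end L5

open L5 in
theorem t_L5 : S_L5 := by
  intro H x κ C B u t₀ hx hxκ hH hbd hu hr
  have hκ : 0 < κ := hx.trans_lt hxκ
  have hC : 0 ≤ C := by
    have := hbd ((x : ℂ) + Complex.I) (by simp) (by simpa using hxκ.le) (by simp)
    have h2 : ((x : ℂ) + Complex.I).im = 1 := by simp
    rw [h2, Real.one_rpow, mul_one] at this
    exact (norm_nonneg _).trans this
  obtain ⟨m, hm⟩ : ∃ m : ℕ, B ≤ m := exists_nat_ge B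
  obtain ⟨cm, hcm⟩ : ∃ cm : ℝ, cm = ∫ s in (1 : ℝ)..2, ((s - 1) * (2 - s)) ^ m := ⟨_, rfl⟩
  have hcm0 : 0 < cm := by
    rw [hcm]
    refine intervalIntegral.intervalIntegral_pos_of_pos_on ?_ (fun s hs => ?_) (by norm_num)
    · exact Continuous.intervalIntegrable (by fun_prop) _ _
    · exact pow_pos (mul_pos (by linarith [hs.1]) (by linarith [hs.2])) _
  -- constants
  obtain ⟨D, hD⟩ : ∃ D : ℝ, D = 3 * m * κ + 2 * ((κ - x) * (C * (4 * κ) ^ m)) := ⟨_, rfl⟩
  have hD0 : 0 ≤ D := by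
    rw [hD]
    have : 0 ≤ κ - x := by linarith
    positivity
  refine ⟨cm ^ 2 / 16, max (max 1 t₀) (max (8 * κ) (8 * D / cm)), by positivity, (le_max_left _ _).trans (le_max_left _ _), ?_⟩
  intro T hT
  have hT1 : 1 ≤ T := ((le_max_left _ _).trans (le_max_left _ _)).trans hT
  have hTt : t₀ ≤ T := ((le_max_right _ _).trans (le_max_left _ _)).trans hT
  have hTκ : 8 * κ ≤ T := ((le_max_left _ _).trans (le_max_right _ _)).trans hT
  have hTD : 8 * D / cm ≤ T := ((le_max_right _ _).trans (le_max_right _ _)).trans hT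
  rw [div_le_iff₀ hcm0] at hTD
  have hT0 : 0 < T := by linarith
  have hqc : ∀ w, DifferentiableAt ℂ (fun w => q T w ^ m) w := by
    intro w
    unfold q
    fun_prop
  -- the four sides
  obtain ⟨f, hf⟩ : ∃ f : ℂ → ℂ, f = fun w => H w * q T w ^ m := ⟨_, rfl⟩
  have hfd : DifferentiableOn ℂ f {w : ℂ | x ≤ w.re ∧ 1 ≤ w.im} := by
    rw [hf]
    exact hH.mul fun w _ => (hqc w).differentiableWithinAt
  have hrect := Complex.integral_boundary_rect_eq_zero_of_differentiableOn f ((x : ℂ) + T * Complex.I)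
    ((κ : ℂ) + (2 * T : ℝ) * Complex.I) (by
      refine hfd.mono fun w hw => ?_
      rw [Complex.mem_reProdIm] at hw
      have e1 : ((x : ℂ) + T * Complex.I).re = x := by simp
      have e2 : ((κ : ℂ) + (2 * T : ℝ) * Complex.I).re = κ := by simp
      have e3 : ((x : ℂ) + T * Complex.I).im = T := by simp
      have e4 : ((κ : ℂ) + (2 * T : ℝ) * Complex.I).im = 2 * T := by simp
      rw [e1, e2, e3, e4, uIcc_of_le hxκ.le, uIcc_of_le (by linarith)] at hw
      exact ⟨hw.1.1, hT1.trans hw.2.1⟩)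
  have e1 : ((x : ℂ) + T * Complex.I).re = x := by simp
  have e2 : ((κ : ℂ) + (2 * T : ℝ) * Complex.I).re = κ := by simp
  have e3 : ((x : ℂ) + T * Complex.I).im = T := by simp
  have e4 : ((κ : ℂ) + (2 * T : ℝ) * Complex.I).im = 2 * T := by simp
  rw [e1, e2, e3, e4] at hrect
  set Bt := ∫ y in x..κ, f ((y : ℂ) + T * Complex.I) with hBt
  set Tp := ∫ y in x..κ, f ((y : ℂ) + (2 * T : ℝ) * Complex.I) with hTp
  set R := ∫ t in T..(2 * T), f ((κ : ℂ) + t * Complex.I) with hR
  set L := ∫ t in T..(2 * T), f ((x : ℂ) + t * Complex.I) with hL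
  have hside : ∀ t : ℝ, (t = T ∨ t = 2 * T) → ‖∫ y in x..κ, f ((y : ℂ) + t * Complex.I)‖ ≤ (κ - x) * (C * (4 * κ) ^ m) := by
    intro t ht
    have ht1 : 1 ≤ t := by rcases ht with h | h <;> rw [h] <;> linarith
    have ht2 : t ≤ 2 * T := by rcases ht with h | h <;> rw [h] <;> linarith
    have h1 := intervalIntegral.norm_integral_le_of_norm_le_const (a := x) (b := κ) (C := C * (4 * κ) ^ m)
      (f := fun y : ℝ => f ((y : ℂ) + t * Complex.I)) (by
        intro y hy
        rw [uIoc_of_le hxκ.le] at hy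
        have hre : ((y : ℂ) + t * Complex.I).re = y := by simp
        have him : ((y : ℂ) + t * Complex.I).im = t := by simp
        rw [hf]
        simp only [norm_mul, norm_pow]
        have h2 := hbd ((y : ℂ) + t * Complex.I) (by rw [hre]; exact hy.1.le) (by rw [hre]; exact hy.2) (by rw [him]; exact ht1)
        rw [him] at h2
        have h3 := q_side hκ hTκ (hx.trans hy.1.le) hy.2 ht
        calc _ ≤ C * t ^ B * (2 * κ / T) ^ m := by gcongr
          _ ≤ C * (2 * T) ^ m * (2 * κ / T) ^ m := by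
              gcongr
              calc t ^ B ≤ t ^ (m : ℝ) := Real.rpow_le_rpow_of_exponent_le ht1 hm
                _ = t ^ m := Real.rpow_natCast _ _
                _ ≤ _ := by gcongr
          _ = _ := by
              rw [mul_assoc, ← mul_pow]
              congr 2
              field_simp
              ring)
    rw [abs_of_pos (by linarith)] at h1
    linarith
  have hB1 : ‖Bt‖ ≤ (κ - x) * (C * (4 * κ) ^ m) := hside T (Or.inl rfl)
  have hB2 : ‖Tp‖ ≤ (κ - x) * (C * (4 * κ) ^ m) := hside (2 * T) (Or.inr rfl)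
  -- R against L
  have hRL : ‖R‖ ≤ ‖L‖ + ‖Bt‖ + ‖Tp‖ := by
    have h1 : Complex.I * R = Complex.I * L - Bt + Tp := by
      simp only [smul_eq_mul] at hrect
      linear_combination hrect
    have h2 : ‖Complex.I * R‖ = ‖R‖ := by rw [norm_mul, Complex.norm_I, one_mul]
    have h3 : ‖Complex.I * L‖ = ‖L‖ := by rw [norm_mul, Complex.norm_I, one_mul]
    rw [← h2, h1]
    calc _ ≤ ‖Complex.I * L - Bt‖ + ‖Tp‖ := norm_add_le _ _
      _ ≤ ‖Complex.I * L‖ + ‖Bt‖ + ‖Tp‖ := by
          gcongr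
          exact norm_sub_le _ _
      _ = _ := by rw [h3]
  -- continuity on vertical lines
  have hcont : ∀ y : ℝ, x ≤ y → ContinuousOn (fun t : ℝ => H ((y : ℂ) + t * Complex.I)) (Icc T (2 * T)) := by
    intro y hy
    refine hH.continuousOn.comp (f := fun t : ℝ => (y : ℂ) + t * Complex.I) (by fun_prop) fun t ht => ?_
    refine ⟨?_, ?_⟩
    · simpa using hy
    · simpa using hT1.trans ht.1
  have hqcont : ∀ y : ℝ, Continuous (fun t : ℝ => q T ((y : ℂ) + t * Complex.I) ^ m) := by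
    intro y
    unfold q
    fun_prop
  have hvcont : Continuous (fun t : ℝ => v T t ^ m) := by
    unfold v
    fun_prop
  have hvint : ∫ t in T..(2 * T), v T t ^ m = T * cm := by
    have h1 := intervalIntegral.integral_comp_div (a := T) (b := 2 * T) (fun s : ℝ => ((s - 1) * (2 - s)) ^ m) hT0.ne'
    rw [div_self hT0.ne', mul_div_assoc, div_self hT0.ne', mul_one, ← hcm, smul_eq_mul] at h1
    rw [← h1]
    rfl
  -- lower bound for R
  have hRlow : 1 / 2 * (T * cm) - 3 * m * κ ≤ ‖R‖ := by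
    have hi1 : IntervalIntegrable (fun t : ℝ => f ((κ : ℂ) + t * Complex.I)) volume T (2 * T) := by
      refine ContinuousOn.intervalIntegrable ?_
      rw [uIcc_of_le (by linarith), hf]
      exact (hcont κ hxκ.le).mul (hqcont κ).continuousOn
    have hi2 : IntervalIntegrable (fun t : ℝ => u * ((v T t ^ m : ℝ) : ℂ)) volume T (2 * T) :=
      Continuous.intervalIntegrable (by fun_prop) _ _
    have h1 : R - u * ((T * cm : ℝ) : ℂ) = ∫ t in T..(2 * T), (f ((κ : ℂ) + t * Complex.I) - u * ((v T t ^ m : ℝ) : ℂ)) := by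
      rw [intervalIntegral.integral_sub hi1 hi2, intervalIntegral.integral_const_mul, intervalIntegral.integral_ofReal, hvint]
    have h2 : ‖R - u * ((T * cm : ℝ) : ℂ)‖ ≤ ∫ t in T..(2 * T), (1 / 2 * v T t ^ m + 3 * m * κ / T) := by
      rw [h1]
      refine intervalIntegral.norm_integral_le_of_norm_le (by linarith) (Eventually.of_forall fun t ht => ?_) ?_
      · have hv := v_mem hT0 ht.1.le ht.2
        have hqle := q_le hκ hTκ hκ.le le_rfl ht.1.le ht.2
        have hqv := q_sub_le hκ hTκ hκ.le le_rfl ht.1.le ht.2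
        have hvn : ‖((v T t : ℝ) : ℂ)‖ ≤ 1 := by
          rw [Complex.norm_real, Real.norm_of_nonneg hv.1]
          linarith [hv.2]
        have hp := pow_sub hqle hvn m
        have hp2 : ‖q T ((κ : ℂ) + t * Complex.I) ^ m - ((v T t : ℝ) : ℂ) ^ m‖ ≤ m * (2 * κ / T) :=
          hp.trans (mul_le_mul_of_nonneg_left hqv (Nat.cast_nonneg _))
        have hHu := hr t (hTt.trans ht.1.le)
        have hqn : ‖q T ((κ : ℂ) + t * Complex.I) ^ m‖ ≤ v T t ^ m + m * (2 * κ / T) := by
          have hvm : ‖((v T t : ℝ) : ℂ) ^ m‖ = v T t ^ m := by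
            rw [norm_pow, Complex.norm_real, Real.norm_of_nonneg hv.1]
          calc _ = ‖(q T ((κ : ℂ) + t * Complex.I) ^ m - ((v T t : ℝ) : ℂ) ^ m) + ((v T t : ℝ) : ℂ) ^ m‖ := by
                rw [sub_add_cancel]
            _ ≤ _ := by
                refine (norm_add_le _ _).trans ?_
                rw [hvm]
                linarith
        have e5 : f ((κ : ℂ) + t * Complex.I) - u * ((v T t ^ m : ℝ) : ℂ) =
            (H ((κ : ℂ) + t * Complex.I) - u) * q T ((κ : ℂ) + t * Complex.I) ^ m +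
            u * (q T ((κ : ℂ) + t * Complex.I) ^ m - ((v T t : ℝ) : ℂ) ^ m) := by
          rw [hf]
          push_cast
          ring
        rw [e5]
        refine (norm_add_le _ _).trans ?_
        rw [norm_mul, norm_mul, hu, one_mul]
        calc _ ≤ 1 / 2 * (v T t ^ m + m * (2 * κ / T)) + m * (2 * κ / T) := by
              gcongr
          _ = _ := by ring
      · exact Continuous.intervalIntegrable (by fun_prop) _ _
    have h3 : ∫ t in T..(2 * T), (1 / 2 * v T t ^ m + 3 * m * κ / T) = 1 / 2 * (T * cm) + 3 * m * κ := by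
      rw [intervalIntegral.integral_add (Continuous.intervalIntegrable (by fun_prop) _ _)
        (Continuous.intervalIntegrable (by fun_prop) _ _), intervalIntegral.integral_const_mul, hvint,
        intervalIntegral.integral_const]
      rw [smul_eq_mul]
      field_simp
      ring
    rw [h3] at h2
    have h4 : ‖u * ((T * cm : ℝ) : ℂ)‖ = T * cm := by
      rw [norm_mul, hu, one_mul, Complex.norm_real, Real.norm_of_nonneg (by positivity)]
    have h5 : T * cm ≤ ‖R‖ + ‖R - u * ((T * cm : ℝ) : ℂ)‖ := by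
      calc T * cm = ‖u * ((T * cm : ℝ) : ℂ)‖ := h4.symm
        _ = ‖R - (R - u * ((T * cm : ℝ) : ℂ))‖ := by rw [sub_sub_cancel]
        _ ≤ _ := norm_sub_le _ _
    linarith
  -- upper bound for L
  have hLup : ‖L‖ ≤ cm / 8 * T + 2 / cm * ∫ t in T..(2 * T), ‖H ((x : ℂ) + t * Complex.I)‖ ^ 2 := by
    have hci : IntervalIntegrable (fun t : ℝ => ‖H ((x : ℂ) + t * Complex.I)‖ ^ 2) volume T (2 * T) := by
      refine ContinuousOn.intervalIntegrable ?_
      rw [uIcc_of_le (by linarith)]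
      exact ((hcont x le_rfl).norm).pow 2
    have h1 : ‖L‖ ≤ ∫ t in T..(2 * T), (cm / 8 + 2 / cm * ‖H ((x : ℂ) + t * Complex.I)‖ ^ 2) := by
      refine intervalIntegral.norm_integral_le_of_norm_le (by linarith) (Eventually.of_forall fun t ht => ?_) ?_
      · have hqle := q_le hκ hTκ hx hxκ.le ht.1.le ht.2
        rw [hf]
        simp only [norm_mul, norm_pow]
        have h2 : ‖q T ((x : ℂ) + t * Complex.I)‖ ^ m ≤ 1 := pow_le_one₀ (norm_nonneg _) hqle
        have h3 : ‖H ((x : ℂ) + t * Complex.I)‖ * ‖q T ((x : ℂ) + t * Complex.I)‖ ^ m ≤ ‖H ((x : ℂ) + t * Complex.I)‖ := by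
          calc _ ≤ ‖H ((x : ℂ) + t * Complex.I)‖ * 1 := by gcongr
            _ = _ := mul_one _
        refine h3.trans ?_
        set z := ‖H ((x : ℂ) + t * Complex.I)‖
        have h4 : 0 ≤ (cm / 4 - z) ^ 2 := sq_nonneg _
        have h5 : cm / 8 + 2 / cm * z ^ 2 - z = 2 / cm * (cm / 4 - z) ^ 2 := by
          field_simp
          ring
        have h6 : 0 ≤ 2 / cm * (cm / 4 - z) ^ 2 := by positivity
        linarith
      · exact intervalIntegrable_const.add (hci.const_mul _)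
    rw [intervalIntegral.integral_add intervalIntegrable_const (hci.const_mul _), intervalIntegral.integral_const_mul,
      intervalIntegral.integral_const, smul_eq_mul] at h1
    linarith
  set J := ∫ t in T..(2 * T), ‖H ((x : ℂ) + t * Complex.I)‖ ^ 2 with hJ
  have hfin : cm * T / 8 ≤ 2 / cm * J := by
    have : 1 / 2 * (T * cm) - D ≤ cm / 8 * T + 2 / cm * J := by
      rw [hD]
      linarith
    nlinarith
  have h7 : 2 / cm * J = 2 * J / cm := by ring
  rw [h7, le_div_iff₀ hcm0] at hfin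
  nlinarith

end

end Pool.Agent.J4H38.GS
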