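import Pool.Agent.J4H38.GS.Stm4
import Pool.Agent.J4H38.GS.Asm3

/-! Project GS4: L6 and the lower bound for every shift vector. -/

set_option autoImplicit false

open MeasureTheory Set Filter Polynomial Topology

namespace Pool.Agent.J4H38.GS

noncomputable section

theorem AA_ne {w : ℂ} (h : 0 < w.re) : AA w ≠ 0 := by
  unfold AA
  refine mul_ne_zero (mul_ne_zero ?_ (Complex.Gamma_ne_zero_of_re_pos h)) (Complex.exp_ne_zero _)
  rw [Complex.cpow_def_of_ne_zero (by
    have := Real.pi_pos.ne'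
    simp [this])]
  exact Complex.exp_ne_zero _

theorem AA_diff {w : ℂ} (h : 0 < w.re) : DifferentiableAt ℂ AA w := by
  unfold AA
  have h2 : (2 * Real.pi : ℂ) ≠ 0 := by
    have := Real.pi_pos.ne'
    simp [this]
  have hG : DifferentiableAt ℂ Complex.Gamma w := by
    refine Complex.differentiableAt_Gamma w fun m hm => ?_
    rw [hm] at h
    simp at h
    have : (0 : ℝ) ≤ m := Nat.cast_nonneg m
    linarith
  refine ((DifferentiableAt.const_cpow differentiableAt_id.neg (Or.inl h2)).mul hG).mul ?_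
  fun_prop

theorem EE_diff (a : ℝ) {w : ℂ} (h : 0 < w.re) (hi : 1 ≤ w.im) : DifferentiableAt ℂ (EE a) w := by
  have hw : w ≠ 1 := by
    intro h1
    rw [h1] at hi
    simp at hi
    linarith
  unfold EE
  have e1 : DifferentiableAt ℂ (fun w : ℂ => Complex.exp (Real.pi * Complex.I * w)) w := by fun_prop
  refine ((HurwitzZeta.differentiableAt_expZeta _ w (Or.inl hw)).add
    (e1.mul (HurwitzZeta.differentiableAt_expZeta _ w (Or.inl hw)))).sub ?_
  refine DifferentiableAt.div ?_ (AA_diff h) (AA_ne h)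
  exact DifferentiableAt.const_cpow (differentiableAt_id.sub_const 1) (Or.inr (by simpa [sub_eq_zero] using hw))

theorem EE_bd (h2 : S_L2) (h3 : S_L3) {a x κ : ℝ} (ha : 0 ≤ a) (ha1 : a < 1) (hx : 1 / 2 ≤ x) :
    ∃ D : ℝ, 0 ≤ D ∧ ∀ w : ℂ, x ≤ w.re → w.re ≤ κ → 1 ≤ w.im → ‖EE a w‖ ≤ D * w.im := by
  obtain ⟨c, hc, hA⟩ := h2 κ
  obtain ⟨C1, hC1, hE1⟩ := h3 a
  obtain ⟨C2, hC2, hE2⟩ := h3 (-a)
  have hax : 0 ≤ a ^ (x - 1) := Real.rpow_nonneg ha _
  refine ⟨(C1 + C2) * (|κ| + 1) + a ^ (x - 1) / c, by positivity, fun w hw hκ hi => ?_⟩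
  have hi0 : 0 < w.im := by linarith
  have hre : 0 < w.re := by linarith
  have hn : ‖w‖ ≤ (|κ| + 1) * w.im := by
    have h := Complex.norm_le_abs_re_add_abs_im w
    rw [abs_of_pos hre, abs_of_pos hi0] at h
    have : w.re ≤ |κ| * w.im := by
      have : w.re ≤ |κ| := hκ.trans (le_abs_self κ)
      nlinarith [abs_nonneg κ]
    linarith
  have b1 := hE1 w (hx.trans hw) hi
  have b2 := hE2 w (hx.trans hw) hi
  have e2 : ((-a : ℝ) : UnitAddCircle) = -(a : UnitAddCircle) := by simp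
  rw [e2] at b2
  have b3 : ‖Complex.exp (Real.pi * Complex.I * w)‖ ≤ 1 := by
    rw [Complex.norm_exp]
    have : (Real.pi * Complex.I * w).re = -(Real.pi * w.im) := by simp
    rw [this]
    refine Real.exp_le_one_iff.2 ?_
    have := mul_pos Real.pi_pos hi0
    linarith
  have hA1 : c ≤ ‖AA w‖ := by
    refine le_trans ?_ (hA w (hx.trans hw) hκ hi)
    have : 1 ≤ w.im ^ (w.re - 1 / 2) := Real.one_le_rpow hi (by linarith)
    nlinarith
  have b4 : ‖(a : ℂ) ^ (w - 1)‖ ≤ a ^ (x - 1) := by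
    rcases ha.eq_or_lt with h | h
    · rw [← h]
      have hw1 : w - 1 ≠ 0 := by
        intro h1
        have := congrArg Complex.im h1
        simp at this
        linarith
      rw [Complex.ofReal_zero, Complex.zero_cpow hw1, norm_zero]
      exact Real.rpow_nonneg le_rfl _
    · rw [Complex.norm_cpow_eq_rpow_re_of_pos h]
      refine Real.rpow_le_rpow_of_exponent_ge h ha1.le ?_
      simp
      linarith
  have b5 : ‖(a : ℂ) ^ (w - 1) / AA w‖ ≤ a ^ (x - 1) / c := by
    rw [norm_div]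
    exact div_le_div₀ hax b4 hc hA1
  unfold EE
  calc _ ≤ ‖HurwitzZeta.expZeta (a : UnitAddCircle) w + Complex.exp (Real.pi * Complex.I * w) *
        HurwitzZeta.expZeta (-(a : UnitAddCircle)) w‖ + ‖(a : ℂ) ^ (w - 1) / AA w‖ := norm_sub_le _ _
    _ ≤ (C1 * ‖w‖ + 1 * (C2 * ‖w‖)) + a ^ (x - 1) / c := by
        refine add_le_add ((norm_add_le _ _).trans (add_le_add b1 ?_)) b5
        rw [norm_mul]
        exact mul_le_mul b3 b2 (norm_nonneg _) zero_le_one
    _ ≤ _ := by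
        have h5 : a ^ (x - 1) / c ≤ a ^ (x - 1) / c * w.im := by
          have : 0 ≤ a ^ (x - 1) / c := by positivity
          nlinarith
        have h6 : (C1 + C2) * ‖w‖ ≤ (C1 + C2) * ((|κ| + 1) * w.im) := mul_le_mul_of_nonneg_left hn (by positivity)
        nlinarith

theorem t_L6 (hDAN : S_DAN) (h1 : S_L1) (h2 : S_L2) (h3 : S_L3) (h4 : S_L4) (h5 : S_L5) : S_L6 := by
  intro k β σ hβ hσ0 hσ1
  have hb : ∀ i, 0 ≤ β i ∧ β i < 1 := fun i => hβ i (mem_univ i)
  obtain ⟨δ, hδ, hcl⟩ : ∃ δ : ℝ, 0 < δ ∧ ∀ z : Fin k → ℂ,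
      (∀ i, ‖z i - Complex.exp (2 * Real.pi * Complex.I * β i)‖ ≤ δ) →
      ‖∏ i, z i - ∏ i, Complex.exp (2 * Real.pi * Complex.I * β i)‖ ≤ 1 / 2 := by
    have hc : Continuous (fun z : Fin k → ℂ => ∏ i, z i) := by fun_prop
    obtain ⟨δ, hδ, h⟩ := Metric.continuousAt_iff.1
      (hc.continuousAt (x := fun i => Complex.exp (2 * Real.pi * Complex.I * β i))) (1 / 2) (by norm_num)
    refine ⟨δ / 2, by positivity, fun z hz => ?_⟩
    have h6 : dist z (fun i => Complex.exp (2 * Real.pi * Complex.I * β i)) < δ := by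
      rw [dist_pi_lt_iff hδ]
      intro i
      rw [dist_eq_norm]
      exact (hz i).trans_lt (by linarith)
    have := h h6
    rw [dist_eq_norm] at this
    exact this.le
  choose κ0 hκ0 hE using fun i => h4 (β i) (hb i).1 (hb i).2 δ hδ
  obtain ⟨κ1, hκ1⟩ := (Set.finite_range κ0).bddAbove
  obtain ⟨κ, hκd⟩ : ∃ κ : ℝ, κ = max 2 κ1 := ⟨_, rfl⟩
  have hκ : ∀ i, κ0 i ≤ κ := fun i => (hκ1 (Set.mem_range_self i)).trans (by rw [hκd]; exact le_max_right _ _)
  have hκ2 : 2 ≤ κ := by rw [hκd]; exact le_max_left _ _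
  choose t0 ht0 hE' using fun i => hE i κ (hκ i)
  obtain ⟨t1, ht1⟩ := (Set.finite_range t0).bddAbove
  choose D hD hDE using fun i => EE_bd h2 h3 (hb i).1 (hb i).2 (κ := κ) (by linarith : (1 : ℝ) / 2 ≤ 1 - σ)
  obtain ⟨c, T₀, hc, hT₀, hmain⟩ := h5 (fun w => ∏ i, EE (β i) w) (1 - σ) κ (∏ i, D i) k
    (∏ i, Complex.exp (2 * Real.pi * Complex.I * β i)) t1 (by linarith) (by linarith)
    (by
      intro w hw
      have hw1 : 0 < w.re := by
        have := hw.1
        linarith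
      exact (DifferentiableAt.fun_finset_prod (u := Finset.univ) fun i _ => EE_diff (β i) hw1 hw.2).differentiableWithinAt)
    (by
      intro w hw hw2 hi
      rw [norm_prod]
      calc ∏ i, ‖EE (β i) w‖ ≤ ∏ i, (D i * w.im) :=
            Finset.prod_le_prod (fun i _ => norm_nonneg _) (fun i _ => hDE i w hw hw2 hi)
        _ = _ := by
            rw [Finset.prod_mul_distrib, Finset.prod_const, Finset.card_univ, Fintype.card_fin, Real.rpow_natCast])
    (by
      rw [norm_prod]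
      refine Finset.prod_eq_one fun i _ => ?_
      rw [Complex.norm_exp]
      have : (2 * Real.pi * Complex.I * (β i : ℂ)).re = 0 := by simp
      rw [this, Real.exp_zero])
    (fun t ht => hcl _ fun i => hE' i t ((ht1 (Set.mem_range_self i)).trans ht))
  obtain ⟨cA, hcA, hA⟩ := h2 1
  refine ⟨cA ^ (2 * k) * c, T₀, by positivity, hT₀, fun T hT => ?_⟩
  have hT1 : 1 ≤ T := hT₀.trans hT
  have hT0 : 0 < T := by linarith
  have key : ∀ t : ℝ, T ≤ t → cA ^ (2 * k) * T ^ (k * (1 - 2 * σ)) * ‖∏ i, EE (β i) (((1 - σ : ℝ) : ℂ) + t * Complex.I)‖ ^ 2 ≤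
      ‖∏ i, (DD (β i) (ln σ (-t)) + 1 / (ln σ (-t) - 1))‖ ^ 2 := by
    intro t ht
    have ht0 : 0 < t := by linarith
    obtain ⟨w, hw⟩ : ∃ w : ℂ, w = ((1 - σ : ℝ) : ℂ) + t * Complex.I := ⟨_, rfl⟩
    have hre : w.re = 1 - σ := by rw [hw]; simp
    have him : w.im = t := by rw [hw]; simp
    have e1 : ln σ (-t) = 1 - w := by
      rw [hw, ln]
      push_cast
      ring
    have e2 : ∏ i, (DD (β i) (ln σ (-t)) + 1 / (ln σ (-t) - 1)) = AA w ^ k * ∏ i, EE (β i) w := by
      have : ∀ i, DD (β i) (ln σ (-t)) + 1 / (ln σ (-t) - 1) = AA w * EE (β i) w := fun i => by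
        rw [e1]
        exact h1 (β i) (hb i).1 (hb i).2 w (by rw [hre]; linarith) (by rw [hre]; linarith) (by rw [him]; linarith)
      rw [Finset.prod_congr rfl fun i _ => this i, Finset.prod_mul_distrib, Finset.prod_const, Finset.card_univ,
        Fintype.card_fin]
    rw [e2, ← hw, norm_mul, mul_pow, norm_pow]
    refine mul_le_mul_of_nonneg_right ?_ (sq_nonneg _)
    have h7 := hA w (by rw [hre]; linarith) (by rw [hre]; linarith) (by rw [him]; linarith)
    rw [hre, him] at h7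
    have h8 : cA * T ^ (1 / 2 - σ) ≤ ‖AA w‖ := by
      refine le_trans (mul_le_mul_of_nonneg_left ?_ hcA.le) h7
      have : 1 - σ - 1 / 2 = 1 / 2 - σ := by ring
      rw [this]
      exact Real.rpow_le_rpow hT0.le ht (by linarith)
    calc cA ^ (2 * k) * T ^ (k * (1 - 2 * σ)) = ((cA * T ^ (1 / 2 - σ)) ^ k) ^ 2 := by
          rw [← pow_mul, mul_pow, mul_comm k 2, ← Real.rpow_natCast (T ^ _), ← Real.rpow_mul hT0.le]
          congr 2
          push_cast
          ring
      _ ≤ _ := by gcongr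
  have hcont1 : ContinuousOn (fun t : ℝ => ‖∏ i, EE (β i) (((1 - σ : ℝ) : ℂ) + t * Complex.I)‖ ^ 2) (Icc T (2 * T)) := by
    refine (ContinuousOn.norm ?_).pow 2
    intro t ht
    have hre : (((1 - σ : ℝ) : ℂ) + t * Complex.I).re = 1 - σ := by simp
    have him : (((1 - σ : ℝ) : ℂ) + t * Complex.I).im = t := by simp
    have h9 : ContinuousAt (fun w => ∏ i, EE (β i) w) (((1 - σ : ℝ) : ℂ) + t * Complex.I) :=
      (DifferentiableAt.fun_finset_prod (u := Finset.univ) fun i _ => EE_diff (β i) (by rw [hre]; linarith)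
        (by rw [him]; linarith [ht.1])).continuousAt
    have h10 : ContinuousAt (fun t : ℝ => ((1 - σ : ℝ) : ℂ) + t * Complex.I) t := by fun_prop
    exact (ContinuousAt.comp (f := fun t : ℝ => ((1 - σ : ℝ) : ℂ) + t * Complex.I) h9 h10).continuousWithinAt
  have hcont2 : Continuous (fun t : ℝ => ‖∏ i, (DD (β i) (ln σ (-t)) + 1 / (ln σ (-t) - 1))‖ ^ 2) :=
    ((prod_cont hDAN hβ hσ0 (by linarith)).comp continuous_neg).norm.pow 2
  have h11 : ∫ t in T..(2 * T), cA ^ (2 * k) * T ^ (k * (1 - 2 * σ)) *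
      ‖∏ i, EE (β i) (((1 - σ : ℝ) : ℂ) + t * Complex.I)‖ ^ 2 ≤
      ∫ t in T..(2 * T), ‖∏ i, (DD (β i) (ln σ (-t)) + 1 / (ln σ (-t) - 1))‖ ^ 2 := by
    refine intervalIntegral.integral_mono_on (by linarith) ?_ (hcont2.intervalIntegrable _ _) fun t ht => key t ht.1
    refine ContinuousOn.intervalIntegrable ?_
    rw [uIcc_of_le (by linarith)]
    exact continuousOn_const.mul hcont1
  refine le_trans ?_ h11
  rw [intervalIntegral.integral_const_mul]
  have h12 := hmain T hT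
  calc cA ^ (2 * k) * c * T ^ (1 + k * (1 - 2 * σ)) = cA ^ (2 * k) * T ^ (k * (1 - 2 * σ)) * (c * T) := by
        rw [Real.rpow_add hT0, Real.rpow_one]
        ring
    _ ≤ _ := mul_le_mul_of_nonneg_left h12 (by positivity)

end

end Pool.Agent.J4H38.GS
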