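import Pool.Agent.J4H38.GS.Stm
import Pool.Agent.H153R4.Pl
import Pool.Agent.E8helper52.OR.Contour

/-!
# The mean square of a function from the mean square of its Laplace transform on a vertical line
(adapted from `Pool.Agent.J4H77.PE.{Grow,Pl2,Pl3,Pl4}`, for general functions)
-/

set_option autoImplicit false

open Filter Topology MeasureTheory Set
open scoped ENNReal FourierTransform

namespace Pool.Agent.J4H38.GS

noncomputable section

/-- the data of (MS) -/
structure Dat (g : ℝ → ℂ) (G : ℂ → ℂ) (σ c b A C : ℝ) (m : ℕ) : Prop where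
  hσ : 0 < σ
  hσc : σ < c
  hb : b < c
  hm : Measurable g
  h0 : ∀ u : ℝ, u < 0 → g u = 0
  hA : ∀ u : ℝ, 0 ≤ u → ‖g u‖ ≤ A * Real.exp (b * u)
  hd : DifferentiableOn ℂ G {s : ℂ | 0 < s.re}
  hG : ∀ s : ℂ, σ ≤ s.re → s.re ≤ c → ‖G s‖ ≤ C * (1 + |s.im|) ^ m
  hT : ∀ t : ℝ, ∫ u in Ioi (0 : ℝ), g u * Complex.exp (-(c + t * Complex.I) * u) = G (c + t * Complex.I)

variable {g : ℝ → ℂ} {G : ℂ → ℂ} {σ c b A C : ℝ} {m : ℕ}

lemma Dat.A0 (D : Dat g G σ c b A C m) : 0 ≤ A := by
  have h := D.hA 0 le_rfl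
  rw [mul_zero, Real.exp_zero, mul_one] at h
  exact (norm_nonneg _).trans h

lemma Dat.C0 (D : Dat g G σ c b A C m) : 0 ≤ C := by
  have h := D.hG (σ : ℂ) (by simp) (by simpa using D.hσc.le)
  simp only [Complex.ofReal_im, abs_zero, add_zero, one_pow, mul_one] at h
  exact (norm_nonneg _).trans h

/-- polynomial growth against a Gaussian factor -/
lemma gauss_beat (m : ℕ) {ε : ℝ} (hε : 0 < ε) (y : ℝ) : y ^ (2 * m) * Real.exp (-ε * y ^ 2) ≤ m.factorial / ε ^ m := by
  have h := Real.pow_div_factorial_le_exp (ε * y ^ 2) (by positivity) m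
  rw [div_le_iff₀ (by positivity)] at h
  rw [le_div_iff₀ (by positivity)]
  have h1 : Real.exp (-ε * y ^ 2) * Real.exp (ε * y ^ 2) = 1 := by
    rw [← Real.exp_add]
    simp
  calc y ^ (2 * m) * Real.exp (-ε * y ^ 2) * ε ^ m = (ε * y ^ 2) ^ m * Real.exp (-ε * y ^ 2) := by
        rw [mul_pow, pow_mul]; ring
    _ ≤ (Real.exp (ε * y ^ 2) * m.factorial) * Real.exp (-ε * y ^ 2) := by gcongr
    _ = m.factorial * (Real.exp (-ε * y ^ 2) * Real.exp (ε * y ^ 2)) := by ring
    _ = m.factorial := by rw [h1, mul_one]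

/-- the Gaussian factor -/
def gs (ε v : ℝ) (z : ℂ) : ℂ := Complex.exp (ε * z ^ 2 + z * v)

lemma gs_norm (ε v : ℝ) (z : ℂ) : ‖gs ε v z‖ = Real.exp (ε * (z.re ^ 2 - z.im ^ 2) + z.re * v) := by
  unfold gs
  rw [Complex.norm_exp]
  congr 1
  simp [pow_two]

/-- the bound for the product with the continuation -/
lemma Hgs_bound (D : Dat g G σ c b A C m) {ε : ℝ} (hε : 0 < ε) (v : ℝ) : ∃ C' : ℝ, 0 ≤ C' ∧
    ∀ s : ℂ, σ ≤ s.re → s.re ≤ c → 1 ≤ |s.im| → ‖G s * gs ε v s‖ ≤ C' / s.im ^ 2 := by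
  have hC := D.C0
  have hc0 : 0 < c := D.hσ.trans D.hσc
  refine ⟨C * 2 ^ m * Real.exp (ε * c ^ 2 + c * |v|) * ((m + 1).factorial / ε ^ (m + 1)), by positivity, fun s h1 h2 h3 => ?_⟩
  have hy1 : 1 ≤ s.im ^ 2 := by rw [← sq_abs]; nlinarith
  have hy : 0 < s.im ^ 2 := by linarith
  have h0s : 0 < s.re := lt_of_lt_of_le D.hσ h1
  rw [norm_mul, gs_norm, le_div_iff₀ hy]
  have h4 := gauss_beat (m + 1) hε s.im
  have h5 : Real.exp (ε * (s.re ^ 2 - s.im ^ 2) + s.re * v) ≤ Real.exp (ε * c ^ 2 + c * |v|) * Real.exp (-ε * s.im ^ 2) := by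
    rw [← Real.exp_add]
    apply Real.exp_le_exp.2
    have h6 : s.re * v ≤ c * |v| := by
      calc s.re * v ≤ |s.re * v| := le_abs_self _
        _ = |s.re| * |v| := abs_mul _ _
        _ ≤ c * |v| := by
          apply mul_le_mul_of_nonneg_right _ (abs_nonneg v)
          rw [abs_of_pos h0s]
          exact h2
    have h7 : s.re ^ 2 ≤ c ^ 2 := by gcongr
    nlinarith
  have h8 : ‖G s‖ ≤ C * 2 ^ m * s.im ^ (2 * m) := by
    refine (D.hG s h1 h2).trans ?_
    rw [mul_assoc, pow_mul, ← mul_pow]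
    apply mul_le_mul_of_nonneg_left _ hC
    apply pow_le_pow_left₀ (by positivity)
    rw [← sq_abs]
    nlinarith
  calc ‖G s‖ * Real.exp (ε * (s.re ^ 2 - s.im ^ 2) + s.re * v) * s.im ^ 2 ≤
      (C * 2 ^ m * s.im ^ (2 * m)) * (Real.exp (ε * c ^ 2 + c * |v|) * Real.exp (-ε * s.im ^ 2)) * s.im ^ 2 := by
        have h9 : 0 ≤ C * 2 ^ m * s.im ^ (2 * m) := le_trans (norm_nonneg _) h8
        gcongr
    _ = C * 2 ^ m * Real.exp (ε * c ^ 2 + c * |v|) * (s.im ^ (2 * (m + 1)) * Real.exp (-ε * s.im ^ 2)) := by ring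
    _ ≤ _ := by gcongr

/-- the line integrals of the product agree -/
theorem shift (D : Dat g G σ c b A C m) {ε : ℝ} (hε : 0 < ε) (v : ℝ) :
    ∫ y : ℝ, G (σ + y * Complex.I) * gs ε v (σ + y * Complex.I) =
    ∫ y : ℝ, G (c + y * Complex.I) * gs ε v (c + y * Complex.I) := by
  obtain ⟨C', hC', h⟩ := Hgs_bound D hε v
  refine Pool.Agent.E8helper52.OR.strip_shift (f := fun z => G z * gs ε v z) D.hσc.le ?_ hC' (le_refl 1) ?_
  · intro z hz _
    have hz0 : 0 < z.re := lt_of_lt_of_le D.hσ hz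
    have h1 : DifferentiableAt ℂ G z := D.hd.differentiableAt
      ((isOpen_lt continuous_const Complex.continuous_re).mem_nhds hz0)
    unfold gs
    fun_prop
  · intro z hz1 hz2 hz3
    exact h z hz1 hz2 hz3

/-- the weighted function, on the whole line -/
def fs (g : ℝ → ℂ) (c u : ℝ) : ℂ := g u * (Real.exp (-c * u) : ℂ)

lemma fs_meas (D : Dat g G σ c b A C m) (c' : ℝ) : Measurable (fs g c') := by
  unfold fs
  have := D.hm
  fun_prop

lemma fs_norm (c' u : ℝ) : ‖fs g c' u‖ = ‖g u‖ * Real.exp (-c' * u) := by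
  unfold fs
  rw [norm_mul, Complex.norm_real, Real.norm_eq_abs, abs_of_pos (Real.exp_pos _)]

lemma ne_zero_ae : ∀ᵐ u : ℝ, u ≠ 0 := by
  rw [ae_iff]
  simp

lemma fs_int (D : Dat g G σ c b A C m) : Integrable (fs g c) := by
  have h1 : IntegrableOn (fs g c) (Ioi 0) := by
    have h2 : IntegrableOn (fun u : ℝ => A * Real.exp ((b - c) * u)) (Ioi 0) :=
      (integrableOn_exp_mul_Ioi (by linarith [D.hb]) 0).const_mul A
    refine Integrable.mono' h2 (fs_meas D c).aestronglyMeasurable ?_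
    refine (ae_restrict_mem measurableSet_Ioi).mono fun u hu => ?_
    rw [fs_norm]
    calc ‖g u‖ * Real.exp (-c * u) ≤ (A * Real.exp (b * u)) * Real.exp (-c * u) :=
          mul_le_mul_of_nonneg_right (D.hA u (le_of_lt hu)) (Real.exp_pos _).le
      _ = A * Real.exp ((b - c) * u) := by rw [mul_assoc, ← Real.exp_add]; ring_nf
  rw [← integrable_indicator_iff measurableSet_Ioi] at h1
  refine h1.congr ?_
  filter_upwards [ne_zero_ae] with u hu
  rcases lt_or_gt_of_ne hu with h2 | h2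
  · rw [indicator_of_notMem (by simpa using h2.le)]
    unfold fs
    rw [D.h0 u h2]
    simp
  · rw [indicator_of_mem (by simpa using h2)]

lemma G_line (D : Dat g G σ c b A C m) (t : ℝ) :
    G (c + t * Complex.I) = ∫ u : ℝ, fs g c u * Complex.exp (-(t * u : ℝ) * Complex.I) := by
  rw [← D.hT t, ← integral_indicator measurableSet_Ioi]
  apply integral_congr_ae
  filter_upwards [ne_zero_ae] with u hu
  rcases lt_or_gt_of_ne hu with h1 | h1
  · rw [indicator_of_notMem (by simpa using h1.le)]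
    unfold fs
    rw [D.h0 u h1]
    simp
  · rw [indicator_of_mem (by simpa using h1)]
    unfold fs
    push_cast
    rw [mul_assoc, ← Complex.exp_add]
    congr 2
    ring

/-- the Gaussian integral along a vertical line -/
lemma gauss_line {ε : ℝ} (hε : 0 < ε) (c w : ℝ) :
    ∫ t : ℝ, gs ε w (c + t * Complex.I) = ((Real.sqrt (Real.pi / ε) * Real.exp (-w ^ 2 / (4 * ε)) : ℝ) : ℂ) := by
  have e : ∀ t : ℝ, gs ε w (c + t * Complex.I) =
      Complex.exp (-(ε : ℂ) * (t : ℂ) ^ 2 + (2 * ε * c + w) * Complex.I * t + (ε * c ^ 2 + c * w)) := by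
    intro t
    unfold gs
    congr 1
    linear_combination (ε * (t : ℂ) ^ 2) * Complex.I_sq
  simp_rw [e]
  rw [integral_cexp_quadratic (by simpa using hε)]
  have h1 : (Real.pi / -(-(ε : ℂ))) ^ (1 / 2 : ℂ) = ((Real.sqrt (Real.pi / ε) : ℝ) : ℂ) := by
    rw [neg_neg, Real.sqrt_eq_rpow, ← Complex.ofReal_div]
    rw [Complex.ofReal_cpow (by positivity)]
    norm_num
  rw [h1]
  push_cast
  congr 2
  have hε0 : (ε : ℂ) ≠ 0 := by exact_mod_cast hε.ne'
  field_simp
  linear_combination ((2 * ε * c + w) ^ 2 : ℂ) * Complex.I_sq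

/-- the smoothed function -/
def phi (g : ℝ → ℂ) (ε v : ℝ) : ℂ := ∫ u : ℝ, g u * (Real.exp (-(v - u) ^ 2 / (4 * ε)) : ℂ)

lemma gauss_t_int {ε : ℝ} (hε : 0 < ε) (c : ℝ) : Integrable (fun t : ℝ => Real.exp (c - ε * t ^ 2)) := by
  have h := (integrable_exp_neg_mul_sq hε).const_mul (Real.exp c)
  refine h.congr (Eventually.of_forall fun t => ?_)
  simp only
  rw [← Real.exp_add]
  ring_nf

theorem line_c (D : Dat g G σ c b A C m) {ε : ℝ} (hε : 0 < ε) (v : ℝ) :
    ∫ y : ℝ, G (c + y * Complex.I) * gs ε v (c + y * Complex.I) =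
      (Real.sqrt (Real.pi / ε) : ℂ) * phi g ε v := by
  have hi := fs_int D
  have e1 : ∀ y : ℝ, G (c + y * Complex.I) * gs ε v (c + y * Complex.I) =
      ∫ u : ℝ, fs g c u * Complex.exp (-(y * u : ℝ) * Complex.I) * gs ε v (c + y * Complex.I) := by
    intro y
    rw [G_line D, integral_mul_const]
  simp_rw [e1]
  rw [integral_integral_swap]
  · have e2 : ∀ u : ℝ, ∫ y : ℝ, fs g c u * Complex.exp (-(y * u : ℝ) * Complex.I) * gs ε v (c + y * Complex.I) =
        (Real.sqrt (Real.pi / ε) : ℂ) * (g u * (Real.exp (-(v - u) ^ 2 / (4 * ε)) : ℂ)) := by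
      intro u
      have e3 : ∀ y : ℝ, fs g c u * Complex.exp (-(y * u : ℝ) * Complex.I) * gs ε v (c + y * Complex.I) =
          g u * gs ε (v - u) (c + y * Complex.I) := by
        intro y
        unfold fs gs
        push_cast
        rw [mul_assoc, mul_assoc, ← Complex.exp_add, ← Complex.exp_add]
        congr 2
        ring
      simp_rw [e3]
      rw [integral_const_mul, gauss_line hε]
      push_cast
      ring
    simp_rw [e2]
    rw [integral_const_mul]
    rfl
  · have h1 : Integrable (fun p : ℝ × ℝ => Real.exp (ε * c ^ 2 + c * v - ε * p.1 ^ 2) * ‖fs g c p.2‖) (volume.prod volume) :=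
      (gauss_t_int hε _).mul_prod hi.norm
    refine Integrable.mono' h1 ?_ ?_
    · refine Measurable.aestronglyMeasurable ?_
      have hm := fs_meas D c
      unfold gs
      have hm2 : Measurable (fun p : ℝ × ℝ => fs g c p.2) := hm.comp measurable_snd
      show Measurable (fun p : ℝ × ℝ => fs g c p.2 * Complex.exp (-(p.1 * p.2 : ℝ) * Complex.I) *
        Complex.exp (ε * (c + p.1 * Complex.I) ^ 2 + (c + p.1 * Complex.I) * v))
      fun_prop
    · refine Eventually.of_forall fun p => ?_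
      show ‖fs g c p.2 * Complex.exp (-(p.1 * p.2 : ℝ) * Complex.I) * gs ε v (c + p.1 * Complex.I)‖ ≤ _
      rw [norm_mul, norm_mul, gs_norm]
      have e4 : ‖Complex.exp (-(p.1 * p.2 : ℝ) * Complex.I)‖ = 1 := by
        rw [← Complex.ofReal_neg, Complex.norm_exp_ofReal_mul_I]
      rw [e4, mul_one, mul_comm]
      apply le_of_eq
      congr 2
      simp
      ring

end

end Pool.Agent.J4H38.GS
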