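import Pool.Agent.J4H38.GS.Ms

/-!
# The mean square of a function from the mean square of its Laplace transform on a vertical line: end
(adapted from `Pool.Agent.J4H77.PE.{Pl3,Pl4}`, for general functions)
-/

set_option autoImplicit false

open Filter Topology MeasureTheory Set
open scoped ENNReal FourierTransform

namespace Pool.Agent.J4H38.GS

noncomputable section

variable {g : ℝ → ℂ} {G : ℂ → ℂ} {σ c b A C : ℝ} {m : ℕ}

/-- the square integral of the continuation on a line -/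
def AH (G : ℂ → ℂ) (σ : ℝ) : ℝ≥0∞ := ∫⁻ ξ : ℝ, ‖G (σ + (2 * Real.pi * ξ : ℝ) * Complex.I)‖ₑ ^ 2

lemma line_cont (D : Dat g G σ c b A C m) : Continuous (fun y : ℝ => G (σ + y * Complex.I)) := by
  refine Pool.Agent.E8helper52.OR.cont_line (fun z hz => D.hd.differentiableAt
      ((isOpen_lt continuous_const Complex.continuous_re).mem_nhds ?_))
  show 0 < z.re
  rw [hz]
  exact D.hσ

lemma line_int (D : Dat g G σ c b A C m) {ε : ℝ} (hε : 0 < ε) (v : ℝ) :
    Integrable (fun y : ℝ => G (σ + y * Complex.I) * gs ε v (σ + y * Complex.I)) := by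
  obtain ⟨C', hC', h⟩ := Hgs_bound D hε v
  have hc : Continuous (fun y : ℝ => G (σ + y * Complex.I) * gs ε v (σ + y * Complex.I)) := by
    refine (line_cont D).mul ?_
    unfold gs
    fun_prop
  obtain ⟨C'', -, h2⟩ := Pool.Agent.E8helper52.OR.global_bd hc hC' (le_refl 1) (fun y hy => by
    have := h (σ + y * Complex.I) (by simp) (by simpa using D.hσc.le) (by simpa using hy)
    simpa using this)
  exact Pool.Agent.E8helper52.OR.integrable_of_bd hc h2

/-- the normalised smoothing -/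
def psi (g : ℝ → ℂ) (ε v : ℝ) : ℂ := ((1 / (2 * Real.pi) * Real.sqrt (Real.pi / ε) : ℝ) : ℂ) * phi g ε v

theorem phi_L2 (D : Dat g G σ c b A C m) {ε : ℝ} (hε : 0 < ε) (hA : AH G σ < ⊤) :
    ∫⁻ v : ℝ, ‖psi g ε v * (Real.exp (-σ * v) : ℂ)‖ₑ ^ 2 ≤ ENNReal.ofReal (Real.exp (2 * ε * σ ^ 2)) * AH G σ := by
  obtain ⟨h, hgd⟩ : ∃ h : ℝ → ℂ, h = fun ξ => G (σ + (2 * Real.pi * ξ : ℝ) * Complex.I) *
    gs ε 0 (σ + (2 * Real.pi * ξ : ℝ) * Complex.I) := ⟨_, rfl⟩
  have hpi : (2 * Real.pi : ℝ) ≠ 0 := by positivity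
  have hgi : Integrable h := by
    have h1 := line_int D hε 0
    have h2 := h1.comp_mul_left' hpi
    rw [hgd]
    exact h2
  have hgn : ∀ ξ, ‖h ξ‖ₑ ^ 2 ≤ ENNReal.ofReal (Real.exp (2 * ε * σ ^ 2)) * ‖G (σ + (2 * Real.pi * ξ : ℝ) * Complex.I)‖ₑ ^ 2 := by
    intro ξ
    rw [hgd]
    simp only
    rw [enorm_mul, mul_pow, mul_comm]
    gcongr
    rw [← ofReal_norm, ← ENNReal.ofReal_pow (norm_nonneg _)]
    apply ENNReal.ofReal_le_ofReal
    rw [gs_norm, ← Real.exp_nat_mul]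
    apply Real.exp_le_exp.2
    simp
    nlinarith [sq_nonneg (2 * Real.pi * ξ)]
  have hgint : ∫⁻ ξ, ‖h ξ‖ₑ ^ 2 ≤ ENNReal.ofReal (Real.exp (2 * ε * σ ^ 2)) * AH G σ := by
    unfold AH
    rw [← lintegral_const_mul']
    · exact lintegral_mono hgn
    · exact ENNReal.ofReal_ne_top
  have hg2 : MemLp h 2 := by
    refine ⟨hgi.aestronglyMeasurable, ?_⟩
    rw [eLpNorm_lt_top_iff_lintegral_rpow_enorm_lt_top (by norm_num) (by norm_num)]
    have h3 : ∫⁻ ξ, ‖h ξ‖ₑ ^ 2 < ⊤ := lt_of_le_of_lt hgint (ENNReal.mul_lt_top ENNReal.ofReal_lt_top hA)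
    simpa using h3
  have hF : ∀ v : ℝ, 𝓕 h (-v) = psi g ε v * (Real.exp (-σ * v) : ℂ) := by
    intro v
    have h1 := shift D hε v
    rw [line_c D hε v] at h1
    have h2 : ∫ ξ : ℝ, G (σ + ((2 * Real.pi * ξ : ℝ) : ℂ) * Complex.I) * gs ε v (σ + ((2 * Real.pi * ξ : ℝ) : ℂ) * Complex.I) =
        |(2 * Real.pi)⁻¹| • ∫ y : ℝ, G (σ + y * Complex.I) * gs ε v (σ + y * Complex.I) :=
      Measure.integral_comp_mul_left (fun y : ℝ => G (σ + y * Complex.I) * gs ε v (σ + y * Complex.I)) (2 * Real.pi)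
    rw [h1] at h2
    have h3 : 𝓕 h (-v) = Complex.exp (-σ * v) * ∫ ξ : ℝ, G (σ + ((2 * Real.pi * ξ : ℝ) : ℂ) * Complex.I) *
        gs ε v (σ + ((2 * Real.pi * ξ : ℝ) : ℂ) * Complex.I) := by
      rw [Real.fourier_eq', ← integral_const_mul]
      apply integral_congr_ae
      refine Eventually.of_forall fun ξ => ?_
      simp only
      rw [hgd]
      simp only [smul_eq_mul, RCLike.inner_apply, conj_trivial]
      unfold gs
      rw [mul_left_comm, mul_left_comm (Complex.exp (-(σ : ℂ) * v)), ← Complex.exp_add, ← Complex.exp_add]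
      congr 2
      push_cast
      ring
    unfold psi
    rw [h3, h2, abs_of_pos (by positivity), Complex.real_smul]
    rw [show Complex.exp (-(σ : ℂ) * v) = ((Real.exp (-σ * v) : ℝ) : ℂ) by push_cast; rfl]
    push_cast
    ring
  have h4 : ∫⁻ v : ℝ, ‖psi g ε v * (Real.exp (-σ * v) : ℂ)‖ₑ ^ 2 =
      ∫⁻ v : ℝ, ‖𝓕 h v‖ₑ ^ 2 := by
    rw [← lintegral_neg_eq_self (f := fun v => ‖𝓕 h v‖ₑ ^ 2)]
    apply lintegral_congr
    intro v
    rw [hF v]
  rw [h4, Pool.Agent.H153R4.plancherel h hgi hg2]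
  exact hgint

/-- the sequence of scales -/
def en (n : ℕ) : ℝ := 1 / (4 * ((n : ℝ) + 1) ^ 2)

lemma en_pos (n : ℕ) : 0 < en n := by unfold en; positivity

lemma psi_eq (g : ℝ → ℂ) (n : ℕ) (v : ℝ) :
    psi g (en n) v = (1 / Real.sqrt Real.pi : ℝ) * ∫ y : ℝ, g (v - y / ((n : ℝ) + 1)) * (Real.exp (-y ^ 2) : ℂ) := by
  have hN : (0 : ℝ) < (n : ℝ) + 1 := by positivity
  have h1 : phi g (en n) v = ∫ x : ℝ, g (v - x) * (Real.exp (-(((n : ℝ) + 1) * x) ^ 2) : ℂ) := by
    unfold phi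
    rw [← integral_sub_left_eq_self (fun u => g u * (Real.exp (-(v - u) ^ 2 / (4 * en n)) : ℂ)) volume v]
    apply integral_congr_ae
    refine Eventually.of_forall fun x => ?_
    simp only
    congr 3
    unfold en
    field_simp
    ring
  have h2 : ∫ y : ℝ, g (v - y / ((n : ℝ) + 1)) * (Real.exp (-y ^ 2) : ℂ) =
      (((n : ℝ) + 1 : ℝ) : ℂ) * ∫ x : ℝ, g (v - x) * (Real.exp (-(((n : ℝ) + 1) * x) ^ 2) : ℂ) := by
    have h3 := Measure.integral_comp_div (fun x : ℝ => g (v - x) * (Real.exp (-(((n : ℝ) + 1) * x) ^ 2) : ℂ)) ((n : ℝ) + 1)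
    rw [abs_of_pos hN, Complex.real_smul] at h3
    rw [← h3]
    apply integral_congr_ae
    refine Eventually.of_forall fun y => ?_
    simp only
    congr 4
    field_simp
  unfold psi
  rw [h2, ← h1]
  have h4 : Real.sqrt (Real.pi / en n) = 2 * ((n : ℝ) + 1) * Real.sqrt Real.pi := by
    have e : Real.pi / en n = (2 * ((n : ℝ) + 1)) ^ 2 * Real.pi := by
      unfold en
      field_simp
      ring
    rw [e, Real.sqrt_mul (by positivity), Real.sqrt_sq (by positivity)]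
  rw [h4]
  have h5 : Real.sqrt Real.pi ≠ 0 := (Real.sqrt_pos.2 Real.pi_pos).ne'
  have h6 : Real.sqrt Real.pi ^ 2 = Real.pi := Real.sq_sqrt Real.pi_pos.le
  have h7 := Real.pi_pos.ne'
  have h8 : 1 / (2 * Real.pi) * (2 * ((n : ℝ) + 1) * Real.sqrt Real.pi) = 1 / Real.sqrt Real.pi * ((n : ℝ) + 1) := by
    obtain ⟨r, hr⟩ : ∃ r, r = Real.sqrt Real.pi := ⟨_, rfl⟩
    rw [← hr] at h5 h6 ⊢
    rw [← h6]
    field_simp
  rw [h8, Complex.ofReal_mul, mul_assoc]

lemma g_le (D : Dat g G σ c b A C m) (u : ℝ) : ‖g u‖ ≤ A * Real.exp (|b| * |u|) := by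
  rcases lt_or_ge u 0 with h | h
  · rw [D.h0 u h, norm_zero]
    exact mul_nonneg D.A0 (Real.exp_pos _).le
  · refine (D.hA u h).trans (mul_le_mul_of_nonneg_left (Real.exp_le_exp.2 ?_) D.A0)
    rw [← abs_mul]
    exact le_abs_self _

theorem phi_tendsto (D : Dat g G σ c b A C m) {v : ℝ} (hv : ContinuousAt g v) :
    Tendsto (fun n : ℕ => psi g (en n) v) atTop (𝓝 (g v)) := by
  simp_rw [psi_eq]
  have h1 : Tendsto (fun n : ℕ => ∫ y : ℝ, g (v - y / ((n : ℝ) + 1)) * (Real.exp (-y ^ 2) : ℂ)) atTop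
      (𝓝 (∫ y : ℝ, g v * (Real.exp (-y ^ 2) : ℂ))) := by
    apply tendsto_integral_of_dominated_convergence
      (fun y : ℝ => A * Real.exp (|b| * |v| + b ^ 2 / 2) * Real.exp (-(1 / 2) * y ^ 2))
    · intro n
      have := D.hm
      exact Measurable.aestronglyMeasurable (by fun_prop)
    · exact (integrable_exp_neg_mul_sq (by norm_num)).const_mul _
    · intro n
      refine Eventually.of_forall fun y => ?_
      rw [norm_mul, Complex.norm_real, Real.norm_eq_abs, abs_of_pos (Real.exp_pos _)]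
      have h2 := g_le D (v - y / ((n : ℝ) + 1))
      have h3 : |b| * |v - y / ((n : ℝ) + 1)| ≤ |b| * (|v| + |y|) := by
        apply mul_le_mul_of_nonneg_left _ (abs_nonneg b)
        refine (abs_sub _ _).trans (add_le_add le_rfl ?_)
        rw [abs_div]
        apply div_le_self (abs_nonneg _)
        rw [abs_of_pos (by positivity)]
        have : (0 : ℝ) ≤ n := Nat.cast_nonneg _
        linarith
      have h5 : |b| * |y| ≤ b ^ 2 / 2 + 1 / 2 * y ^ 2 := by
        rw [← sq_abs y, ← sq_abs b]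
        nlinarith [sq_nonneg (|y| - |b|)]
      calc ‖g (v - y / ((n : ℝ) + 1))‖ * Real.exp (-y ^ 2) ≤
          (A * Real.exp (|b| * (|v| + |y|))) * Real.exp (-y ^ 2) := by
            apply mul_le_mul_of_nonneg_right _ (Real.exp_pos _).le
            exact h2.trans (mul_le_mul_of_nonneg_left (Real.exp_le_exp.2 h3) D.A0)
        _ = A * Real.exp (|b| * (|v| + |y|) - y ^ 2) := by
            rw [mul_assoc, ← Real.exp_add]
            ring_nf
        _ ≤ A * Real.exp ((|b| * |v| + b ^ 2 / 2) + (-(1 / 2) * y ^ 2)) := by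
            apply mul_le_mul_of_nonneg_left _ D.A0
            apply Real.exp_le_exp.2
            nlinarith
        _ = _ := by rw [Real.exp_add, mul_assoc]
    · refine Eventually.of_forall fun y => ?_
      have h2 : Tendsto (fun n : ℕ => v - y / ((n : ℝ) + 1)) atTop (𝓝 v) := by
        have h3 : Tendsto (fun n : ℕ => y / ((n : ℝ) + 1)) atTop (𝓝 0) := by
          refine Tendsto.div_atTop tendsto_const_nhds ?_
          exact tendsto_atTop_add_const_right _ _ tendsto_natCast_atTop_atTop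
        have := h3.const_sub v
        simpa using this
      exact (hv.tendsto.comp h2).mul_const _
  have h2 := h1.const_mul ((1 / Real.sqrt Real.pi : ℝ) : ℂ)
  rw [integral_const_mul, integral_complex_ofReal] at h2
  have h3 : ∫ y : ℝ, Real.exp (-y ^ 2) = Real.sqrt Real.pi := by
    have := integral_gaussian 1
    simpa using this
  rw [h3] at h2
  have h5 : ((Real.sqrt Real.pi : ℝ) : ℂ) ≠ 0 := by exact_mod_cast (Real.sqrt_pos.2 Real.pi_pos).ne'
  have h6 : ((1 / Real.sqrt Real.pi : ℝ) : ℂ) * (g v * (Real.sqrt Real.pi : ℂ)) = g v := by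
    push_cast
    field_simp
  rw [h6] at h2
  exact h2

/-- from the transform to the function -/
theorem L2_of_AH (D : Dat g G σ c b A C m) (hc : ∀ᵐ v : ℝ, ContinuousAt g v) (hA : AH G σ < ⊤) :
    ∫⁻ v : ℝ, ‖fs g σ v‖ₑ ^ 2 < ⊤ := by
  have hm := D.hm
  have hphi : ∀ n : ℕ, Measurable (fun v : ℝ => psi g (en n) v) := by
    intro n
    unfold psi phi
    refine Measurable.const_mul ?_ _
    refine (StronglyMeasurable.integral_prod_right (f := fun v u : ℝ => g u * (Real.exp (-(v - u) ^ 2 / (4 * en n)) : ℂ)) ?_).measurable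
    refine Measurable.stronglyMeasurable ?_
    have : Measurable (fun p : ℝ × ℝ => g p.2) := hm.comp measurable_snd
    show Measurable (fun p : ℝ × ℝ => g p.2 * (Real.exp (-(p.1 - p.2) ^ 2 / (4 * en n)) : ℂ))
    fun_prop
  have h1 : ∀ᵐ v : ℝ, Tendsto (fun n : ℕ => ‖psi g (en n) v * (Real.exp (-σ * v) : ℂ)‖ₑ ^ 2)
      atTop (𝓝 (‖fs g σ v‖ₑ ^ 2)) := by
    filter_upwards [hc] with v hv
    have h2 := (phi_tendsto D hv).mul_const (Real.exp (-σ * v) : ℂ)
    have h3 := (continuous_enorm.tendsto _).comp h2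
    have h4 := ((ENNReal.continuous_pow 2).tendsto _).comp h3
    exact h4
  have h2 : ∫⁻ v : ℝ, ‖fs g σ v‖ₑ ^ 2 ≤ liminf (fun n : ℕ =>
      ∫⁻ v : ℝ, ‖psi g (en n) v * (Real.exp (-σ * v) : ℂ)‖ₑ ^ 2) atTop := by
    calc ∫⁻ v : ℝ, ‖fs g σ v‖ₑ ^ 2 = ∫⁻ v : ℝ, liminf (fun n : ℕ =>
          ‖psi g (en n) v * (Real.exp (-σ * v) : ℂ)‖ₑ ^ 2) atTop := by
          apply lintegral_congr_ae
          filter_upwards [h1] with v hv
          exact hv.liminf_eq.symm
      _ ≤ _ := by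
          apply lintegral_liminf_le
          intro n
          have := hphi n
          fun_prop
  have h3 : liminf (fun n : ℕ => ∫⁻ v : ℝ, ‖psi g (en n) v * (Real.exp (-σ * v) : ℂ)‖ₑ ^ 2) atTop ≤
      ENNReal.ofReal (Real.exp (2 * σ ^ 2)) * AH G σ := by
    apply liminf_le_of_le (by isBoundedDefault)
    intro b' hb
    obtain ⟨n, hn⟩ := hb.exists
    refine hn.trans ((phi_L2 D (en_pos n) hA).trans ?_)
    gcongr
    have : en n ≤ 1 := by
      unfold en
      rw [div_le_one (by positivity)]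
      have : (0 : ℝ) ≤ n := Nat.cast_nonneg _
      nlinarith
    nlinarith [sq_nonneg σ]
  exact lt_of_le_of_lt (h2.trans h3) (ENNReal.mul_lt_top ENNReal.ofReal_lt_top hA)

/-- (MS) with the extra hypothesis that `g` is almost everywhere continuous -/
def S_MS2 : Prop := ∀ (g : ℝ → ℂ) (G : ℂ → ℂ) (σ c b A C : ℝ) (m : ℕ), 0 < σ → σ < c → b < c → Measurable g →
  (∀ᵐ v : ℝ, ContinuousAt g v) →
  (∀ u : ℝ, u < 0 → g u = 0) → (∀ u : ℝ, 0 ≤ u → ‖g u‖ ≤ A * Real.exp (b * u)) →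
  DifferentiableOn ℂ G {s : ℂ | 0 < s.re} →
  (∀ s : ℂ, σ ≤ s.re → s.re ≤ c → ‖G s‖ ≤ C * (1 + |s.im|) ^ m) →
  (∀ t : ℝ, ∫ u in Ioi (0 : ℝ), g u * Complex.exp (-(c + t * Complex.I) * u) = G (c + t * Complex.I)) →
  ∫⁻ t : ℝ, ‖G (σ + t * Complex.I)‖ₑ ^ 2 < ⊤ →
  ∫⁻ u in Ioi (0 : ℝ), ‖g u‖ₑ ^ 2 * ENNReal.ofReal (Real.exp (-2 * σ * u)) < ⊤

theorem t_MS2 : S_MS2 := by
  intro g G σ c b A C m hσ hσc hb hm hc h0 hA hd hG hT hI
  have D : Dat g G σ c b A C m := ⟨hσ, hσc, hb, hm, h0, hA, hd, hG, hT⟩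
  have hAH : AH G σ < ⊤ := by
    unfold AH
    have hmes : Measurable (fun y : ℝ => ‖G (σ + y * Complex.I)‖ₑ ^ 2) := (line_cont D).measurable.enorm.pow_const 2
    have h1 := lintegral_map (μ := volume) hmes (measurable_const_mul (2 * Real.pi))
    rw [Real.map_volume_mul_left (by positivity), lintegral_smul_measure] at h1
    rw [← h1]
    exact ENNReal.mul_lt_top ENNReal.ofReal_lt_top hI
  refine lt_of_le_of_lt ?_ (L2_of_AH D hc hAH)
  refine (le_of_eq ?_).trans (setLIntegral_le_lintegral (Ioi (0 : ℝ)) _)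
  apply lintegral_congr
  intro u
  unfold fs
  rw [enorm_mul, mul_pow]
  congr 1
  rw [← ofReal_norm (Real.exp (-σ * u) : ℂ), Complex.norm_real, Real.norm_eq_abs, abs_of_pos (Real.exp_pos _),
    ← ENNReal.ofReal_pow (Real.exp_pos _).le, ← Real.exp_nat_mul]
  congr 2
  push_cast
  ring

end

end Pool.Agent.J4H38.GS
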