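import Pool.Agent.J4H38.GS.Stm
import Pool.Agent.J4H77.PE.Mel

/-!
# Project GS (PM): the transform of the main term
-/

set_option autoImplicit false

open MeasureTheory Set Filter Polynomial

namespace Pool.Agent.J4H38.GS

theorem pm_eq (P : ℂ[X]) (s : ℂ) (u : ℝ) : (Real.exp u : ℂ) * P.eval (u : ℂ) * Complex.exp (-s * u) =
    ∑ j ∈ P.support, P.coeff j * (((u ^ j : ℝ) : ℂ) * Complex.exp (-(s - 1) * u)) := by
  have e : (Real.exp u : ℂ) * P.eval (u : ℂ) * Complex.exp (-s * u) = P.eval (u : ℂ) * Complex.exp (-(s - 1) * u) := by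
    rw [Complex.ofReal_exp, mul_comm (Complex.exp _), mul_assoc, ← Complex.exp_add]
    congr 2
    ring
  rw [e, Polynomial.eval_eq_sum, Polynomial.sum, Finset.sum_mul]
  refine Finset.sum_congr rfl fun j _ => ?_
  push_cast
  ring

theorem t_PM : S_PM := by
  intro P s hs
  have hi : ∀ j ∈ P.support, IntegrableOn
      (fun u : ℝ => P.coeff j * (((u ^ j : ℝ) : ℂ) * Complex.exp (-(s - 1) * u))) (Ioi 0) := fun j _ =>
    (Pool.Agent.J4H77.PE.mono_int1 j hs).const_mul _
  have h1 : (fun u : ℝ => (Real.exp u : ℂ) * P.eval (u : ℂ) * Complex.exp (-s * u)) =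
      fun u : ℝ => ∑ j ∈ P.support, P.coeff j * (((u ^ j : ℝ) : ℂ) * Complex.exp (-(s - 1) * u)) :=
    funext (pm_eq P s)
  constructor
  · rw [h1]
    exact integrable_finsetSum _ hi
  · rw [h1, integral_finsetSum _ hi]
    unfold RR Polynomial.sum
    refine Finset.sum_congr rfl fun j _ => ?_
    rw [integral_const_mul, Pool.Agent.J4H77.PE.mono_val j hs]

end Pool.Agent.J4H38.GS
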