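import Pool.Agent.J4H38.GS.Stm2

/-!
# Project GS (Z1): zeta as `DD 0 s + 1 / (s - 1)`
-/

set_option autoImplicit false

open MeasureTheory Set Filter

namespace Pool.Agent.J4H38.GS

theorem z1_right (hHUR : S_HUR) {s : ℂ} (hs : 1 < s.re) : DD 0 s + 1 / (s - 1) = riemannZeta s := by
  have h1 := (hHUR 0 le_rfl one_pos s hs).tsum_eq
  rw [← h1, zeta_eq_tsum_one_div_nat_add_one_cpow hs]
  refine tsum_congr fun n => ?_
  rw [Complex.cpow_neg, one_div]
  congr 2
  push_cast
  ring

theorem t_Z1 (hDAN : S_DAN) (hHUR : S_HUR) : S_Z1 := by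
  have hU : IsOpen {s : ℂ | 0 < s.re} := isOpen_lt continuous_const Complex.continuous_re
  have hpre : IsPreconnected {s : ℂ | 0 < s.re} := (convex_halfSpace_re_gt 0).isPreconnected
  have hf : AnalyticOnNhd ℂ (fun s => (s - 1) * DD 0 s + 1) {s : ℂ | 0 < s.re} := by
    apply DifferentiableOn.analyticOnNhd _ hU
    have := (hDAN 0 le_rfl one_pos).1
    fun_prop
  have hg : AnalyticOnNhd ℂ riemannZeta₁ {s : ℂ | 0 < s.re} :=
    DifferentiableOn.analyticOnNhd (fun s _ => (differentiable_riemannZeta₁ s).differentiableWithinAt) hU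
  have heq : (fun s => (s - 1) * DD 0 s + 1) =ᶠ[nhds 2] riemannZeta₁ := by
    have h2 : {s : ℂ | 1 < s.re} ∈ nhds (2 : ℂ) :=
      (isOpen_lt continuous_const Complex.continuous_re).mem_nhds (by simp)
    filter_upwards [h2] with s hs
    have hs' : 1 < s.re := hs
    have hne : s ≠ 1 := fun h => by
      rw [h] at hs'
      simp at hs'
    have hne' : s - 1 ≠ 0 := sub_ne_zero.2 hne
    have h3 := z1_right hHUR hs'
    rw [riemannZeta_eq_inv_sub_mul hne] at h3
    have h4 : riemannZeta₁ s = (s - 1) * (DD 0 s + 1 / (s - 1)) := by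
      rw [h3]
      field_simp
    rw [h4]
    field_simp
  have hall := hf.eqOn_of_preconnected_of_eventuallyEq hg hpre (show (2 : ℂ) ∈ {s : ℂ | 0 < s.re} by simp) heq
  intro s hs hne
  have hne' : s - 1 ≠ 0 := sub_ne_zero.2 hne
  have h5 := hall (show s ∈ {s : ℂ | 0 < s.re} from hs)
  simp only at h5
  rw [riemannZeta_eq_inv_sub_mul hne, ← h5]
  field_simp

end Pool.Agent.J4H38.GS
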