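import Pool.Agent.J4H38.GS.Asm2
import Pool.Agent.J4H38.GS.Z1
import Pool.Agent.J4H30.GS.Kb
import Pool.Agent.J4H30.GS.Tr
import Pool.Agent.J4H13.GS.Fu2
import Pool.Agent.J4H89.GS.PP
import Pool.Agent.J4H89.GS.HUR
import Pool.Agent.J4H89.GS.DAN
import Pool.Agent.J4H38.GS.Pm
import Pool.Agent.J4H94.GS.Z3
import Pool.Agent.J4H94.GS.Z4
import Pool.Agent.J4H55.GS.Z2
import Pool.Agent.J4H49.GS.Z3A
import Pool.Agent.J4H38.GS.Asm3
import Pool.Agent.J4H38.GS.E7b
import Pool.Agent.J4H72.GS.E1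
import Pool.Agent.J4H49.GS.E2
import Pool.Agent.J4H66.GS.E3
import Pool.Agent.J4H46.GS.E4
import Pool.Agent.J4H23.GS.E5

/-!
# The mean square in the Piltz divisor problem for almost all shifts

Problem MP_bc6037_nt: the number of the `n ∈ ℕ^K` with `n_1 ⋯ n_K ≤ x` is `x P(log x) + Δ(x)`, and the conjectured size of the
remainder in mean square is `∫_1^X Δ(x)² dx ≪ X^{1 + (K-1)/K + ε}` (for all `K` equivalent to the Lindelöf hypothesis).  Here
`n_1 ⋯ n_K` is replaced by `∏ (n_i + β_i)`, where up to two of the shifts `β_i` are zero and the vector of the others is any one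
outside a null set of `[0, 1)^k`.  If all shifts are generic, the exponent is exact.
-/

set_option autoImplicit false

open MeasureTheory Polynomial

namespace Pool.Agent.J4H38.GS.RV3

/-- The number of the `n ∈ ℕ^K` with all `n_i ≥ 1` and `∏ (n_i + β_i) ≤ x`. -/
noncomputable def count (K : ℕ) (β : Fin K → ℝ) (x : ℝ) : ℕ :=
  {n : Fin K → ℕ | (∀ i, 1 ≤ n i) ∧ ∏ i, ((n i : ℝ) + β i) ≤ x}.ncard

/-- The shift vector `(0, …, 0, α_1, …, α_k)` with `J` zeros. -/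
noncomputable def shifts (J k : ℕ) (α : Fin k → ℝ) : Fin (J + k) → ℝ :=
  Fin.append (fun _ : Fin J => (0 : ℝ)) α

theorem sq_int {K : ℕ} {β : Fin K → ℝ} (hβ : ∀ i, 0 ≤ β i) (P : ℝ[X]) {X : ℝ} (hX : 1 ≤ X) :
    IntervalIntegrable (fun x => ((count K β x : ℝ) - x * P.eval (Real.log x)) ^ 2) volume 1 X := by
  have hm : Monotone (fun x => (count K β x : ℝ)) := fun x y h => by
    have := Pool.Agent.J4H38.GS.cnt_mono hβ h
    show (count K β x : ℝ) ≤ (count K β y : ℝ)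
    exact_mod_cast this
  have hm2 : Monotone (fun x => (count K β x : ℝ) ^ 2) := fun x y h => by
    have := hm h
    show (count K β x : ℝ) ^ 2 ≤ (count K β y : ℝ) ^ 2
    exact pow_le_pow_left₀ (Nat.cast_nonneg _) this 2
  have hc : ContinuousOn (fun x : ℝ => x * P.eval (Real.log x)) (Set.uIcc 1 X) := by
    refine continuousOn_id.mul (P.continuous.comp_continuousOn (Real.continuousOn_log.mono ?_))
    intro x hx
    rw [Set.uIcc_of_le hX] at hx
    have : (0 : ℝ) < x := by linarith [hx.1]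
    exact this.ne'
  have h1 := hm2.intervalIntegrable (μ := volume) (a := 1) (b := X)
  have h2 := (hm.intervalIntegrable (μ := volume) (a := 1) (b := X)).mul_continuousOn hc
  have h3 := (hc.pow 2).intervalIntegrable (μ := volume)
  refine ((h1.sub (h2.const_mul 2)).add h3).congr ?_
  intro x _
  simp only [Pi.pow_apply]
  ring

theorem top : Pool.Agent.J4H38.GS.S_TOP2 :=
  Pool.Agent.J4H38.GS.t_TOP2 Pool.Agent.J4H89.GS.t_DAN
    (Pool.Agent.J4H13.GS.t_FU2 (Pool.Agent.J4H13.GS.t_SM Pool.Agent.J4H30.GS.t_KB)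
      (Pool.Agent.J4H38.GS.t_Z1 Pool.Agent.J4H89.GS.t_DAN Pool.Agent.J4H89.GS.t_HUR)
      (Pool.Agent.J4H94.GS.t_Z4 Pool.Agent.J4H55.GS.t_Z2 (Pool.Agent.J4H94.GS.t_Z3 Pool.Agent.J4H49.GS.t_Z3A)))
    (Pool.Agent.J4H30.GS.t_TR Pool.Agent.J4H89.GS.t_HUR) Pool.Agent.J4H89.GS.t_PP Pool.Agent.J4H38.GS.t_PM

theorem low : Pool.Agent.J4H38.GS.S_LOW :=
  have e1 := Pool.Agent.J4H72.GS.t_E1
  have kb := Pool.Agent.J4H30.GS.t_KB
  have e2 := Pool.Agent.J4H49.GS.t_E2 kb e1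
  have e4 := Pool.Agent.J4H46.GS.t_E4 e2 Pool.Agent.J4H66.GS.t_E3
  Pool.Agent.J4H38.GS.t_LOW Pool.Agent.J4H89.GS.t_DAN (Pool.Agent.J4H23.GS.t_E5 kb e1 e2 e4)
    (Pool.Agent.J4H38.GS.t_E7 Pool.Agent.J4H89.GS.t_DAN (Pool.Agent.J4H30.GS.t_TR Pool.Agent.J4H89.GS.t_HUR)
      Pool.Agent.J4H38.GS.t_PM)

/-- Upper bound: for `J ≤ 2` and almost every `α ∈ [0, 1)^k`, for the shift vector `(0, …, 0, α)`. -/
def Upper : Prop :=
  ∀ J k : ℕ, J ≤ 2 → 1 ≤ J + k →
    ∀ᵐ α : Fin k → ℝ ∂(volume.restrict (Set.pi Set.univ fun _ => Set.Ico (0 : ℝ) 1)),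
      ∃ P : ℝ[X], P.degree < ((J + k : ℕ) : WithBot ℕ) ∧ ∀ ε : ℝ, 0 < ε → ∃ C : ℝ, ∀ X : ℝ, 1 ≤ X →
        IntervalIntegrable
          (fun x => ((count (J + k) (shifts J k α) x : ℝ) - x * P.eval (Real.log x)) ^ 2) volume 1 X ∧
        ∫ x in (1 : ℝ)..X, ((count (J + k) (shifts J k α) x : ℝ) - x * P.eval (Real.log x)) ^ 2 ≤
          C * X ^ (1 + (((J + k : ℕ) : ℝ) - 1) / ((J + k : ℕ) : ℝ) + ε)

/-- Lower bound: for `k ≥ 2` and almost every `α ∈ [0, 1)^k`, for the shift vector `α` and every main term `x Q(log x)`. -/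
def Lower : Prop :=
  ∀ k : ℕ, 2 ≤ k →
    ∀ᵐ α : Fin k → ℝ ∂(volume.restrict (Set.pi Set.univ fun _ => Set.Ico (0 : ℝ) 1)),
      ∀ (Q : ℝ[X]) (b : ℝ), b < ((k : ℝ) - 1) / (2 * k) →
        ¬ ∃ C : ℝ, ∀ X : ℝ, 1 ≤ X →
          ∫ x in (1 : ℝ)..X, ((count k α x : ℝ) - x * Q.eval (Real.log x)) ^ 2 ≤ C * X ^ (1 + 2 * b)

theorem upper : Upper := by
  intro J k hJ hK
  have hcm : MeasurableSet (Set.pi Set.univ fun _ : Fin k => Set.Ico (0 : ℝ) 1) :=
    MeasurableSet.univ_pi (fun _ => measurableSet_Ico)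
  filter_upwards [top J k hJ hK, ae_restrict_mem hcm] with α hα hcube
  obtain ⟨P, hP, h⟩ := hα
  refine ⟨P, hP, fun ε hε => ?_⟩
  obtain ⟨C, hC⟩ := h ε hε
  have hs : ∀ i, 0 ≤ shifts J k α i := fun i =>
    (Pool.Agent.J4H38.GS.app_mem (J := J) hcube i (Set.mem_univ i)).1
  exact ⟨C, fun X hX => ⟨sq_int hs P hX, hC X hX⟩⟩

theorem lower : Lower := low

/-- The mean square of the remainder in the Piltz divisor problem for almost all shifts: the exponent of the conjecture is an upper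
bound also with up to two shifts zero, and for all shifts generic it is exact. -/
theorem result : Upper ∧ Lower := ⟨upper, lower⟩

end Pool.Agent.J4H38.GS.RV3
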