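import Pool.Agent.J4H38.GS.Asm2
import Pool.Agent.J4H38.GS.Z1
import Pool.Agent.J4H30.GS.Kb
import Pool.Agent.J4H30.GS.Tr
import Pool.Agent.J4H13.GS.Fu2
import Pool.Agent.J4H89.GS.PP
import Pool.Agent.J4H89.GS.HUR
import Pool.Agent.J4H89.GS.DAN
import Pool.Agent.J4H38.GS.Pm
import Pool.Agent.J4H94.GS.Z3
import Pool.Agent.J4H94.GS.Z4
import Pool.Agent.J4H55.GS.Z2
import Pool.Agent.J4H49.GS.Z3A
import Pool.Agent.J4H38.GS.E7b
import Pool.Agent.J4H38.GS.Low2
import Pool.Agent.J4H38.GS.L5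
import Pool.Agent.J4H93.GS.L1
import Pool.Agent.J4H72.GS.L2
import Pool.Agent.J4H72.GS.L4
import Pool.Agent.J4H38.GS.L3

/-!
# The mean square in the Piltz divisor problem for almost all shifts

Problem MP_bc6037_nt: the number of the `n ∈ ℕ^K` with `n_1 ⋯ n_K ≤ x` is `x P(log x) + Δ(x)`, and the conjectured size of the
remainder in mean square is `∫_1^X Δ(x)² dx ≪ X^{1 + (K-1)/K + ε}` (for all `K` equivalent to the Lindelöf hypothesis).  Here
`n_1 ⋯ n_K` is replaced by `∏ (n_i + β_i)`.  The upper bound holds if up to two of the shifts `β_i` are zero and the vector of the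
others is any one outside a null set of `[0, 1)^k`; the lower bound with the same exponent holds for every shift vector.
-/

set_option autoImplicit false

open MeasureTheory Polynomial

namespace Pool.Agent.J4H38.GS.RV4

/-- The number of the `n ∈ ℕ^K` with all `n_i ≥ 1` and `∏ (n_i + β_i) ≤ x`. -/
noncomputable def count (K : ℕ) (β : Fin K → ℝ) (x : ℝ) : ℕ :=
  {n : Fin K → ℕ | (∀ i, 1 ≤ n i) ∧ ∏ i, ((n i : ℝ) + β i) ≤ x}.ncard

/-- The shift vector `(0, …, 0, α_1, …, α_k)` with `J` zeros. -/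
noncomputable def shifts (J k : ℕ) (α : Fin k → ℝ) : Fin (J + k) → ℝ :=
  Fin.append (fun _ : Fin J => (0 : ℝ)) α

theorem sq_int {K : ℕ} {β : Fin K → ℝ} (hβ : ∀ i, 0 ≤ β i) (P : ℝ[X]) {X : ℝ} (hX : 1 ≤ X) :
    IntervalIntegrable (fun x => ((count K β x : ℝ) - x * P.eval (Real.log x)) ^ 2) volume 1 X := by
  have hm : Monotone (fun x => (count K β x : ℝ)) := fun x y h => by
    have := Pool.Agent.J4H38.GS.cnt_mono hβ h
    show (count K β x : ℝ) ≤ (count K β y : ℝ)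
    exact_mod_cast this
  have hm2 : Monotone (fun x => (count K β x : ℝ) ^ 2) := fun x y h => by
    have := hm h
    show (count K β x : ℝ) ^ 2 ≤ (count K β y : ℝ) ^ 2
    exact pow_le_pow_left₀ (Nat.cast_nonneg _) this 2
  have hc : ContinuousOn (fun x : ℝ => x * P.eval (Real.log x)) (Set.uIcc 1 X) := by
    refine continuousOn_id.mul (P.continuous.comp_continuousOn (Real.continuousOn_log.mono ?_))
    intro x hx
    rw [Set.uIcc_of_le hX] at hx
    have : (0 : ℝ) < x := by linarith [hx.1]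
    exact this.ne'
  have h1 := hm2.intervalIntegrable (μ := volume) (a := 1) (b := X)
  have h2 := (hm.intervalIntegrable (μ := volume) (a := 1) (b := X)).mul_continuousOn hc
  have h3 := (hc.pow 2).intervalIntegrable (μ := volume)
  refine ((h1.sub (h2.const_mul 2)).add h3).congr ?_
  intro x _
  simp only [Pi.pow_apply]
  ring

theorem top : Pool.Agent.J4H38.GS.S_TOP2 :=
  Pool.Agent.J4H38.GS.t_TOP2 Pool.Agent.J4H89.GS.t_DAN
    (Pool.Agent.J4H13.GS.t_FU2 (Pool.Agent.J4H13.GS.t_SM Pool.Agent.J4H30.GS.t_KB)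
      (Pool.Agent.J4H38.GS.t_Z1 Pool.Agent.J4H89.GS.t_DAN Pool.Agent.J4H89.GS.t_HUR)
      (Pool.Agent.J4H94.GS.t_Z4 Pool.Agent.J4H55.GS.t_Z2 (Pool.Agent.J4H94.GS.t_Z3 Pool.Agent.J4H49.GS.t_Z3A)))
    (Pool.Agent.J4H30.GS.t_TR Pool.Agent.J4H89.GS.t_HUR) Pool.Agent.J4H89.GS.t_PP Pool.Agent.J4H38.GS.t_PM

theorem low : Pool.Agent.J4H38.GS.S_LOW2 :=
  have dan := Pool.Agent.J4H89.GS.t_DAN
  have hur := Pool.Agent.J4H89.GS.t_HUR
  have l2 := Pool.Agent.J4H72.GS.t_L2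
  Pool.Agent.J4H38.GS.t_LOW2 dan
    (Pool.Agent.J4H38.GS.t_L6 dan (Pool.Agent.J4H93.GS.t_L1 dan hur) l2 (Pool.Agent.J4H38.GS.t_L3 dan hur)
      (Pool.Agent.J4H72.GS.t_L4 l2) Pool.Agent.J4H38.GS.t_L5)
    (Pool.Agent.J4H38.GS.t_E7 dan (Pool.Agent.J4H30.GS.t_TR hur) Pool.Agent.J4H38.GS.t_PM)

/-- Upper bound: for `J ≤ 2` and almost every `α ∈ [0, 1)^k`, for the shift vector `(0, …, 0, α)`. -/
def Upper : Prop :=
  ∀ J k : ℕ, J ≤ 2 → 1 ≤ J + k →
    ∀ᵐ α : Fin k → ℝ ∂(volume.restrict (Set.pi Set.univ fun _ => Set.Ico (0 : ℝ) 1)),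
      ∃ P : ℝ[X], P.degree < ((J + k : ℕ) : WithBot ℕ) ∧ ∀ ε : ℝ, 0 < ε → ∃ C : ℝ, ∀ X : ℝ, 1 ≤ X →
        IntervalIntegrable
          (fun x => ((count (J + k) (shifts J k α) x : ℝ) - x * P.eval (Real.log x)) ^ 2) volume 1 X ∧
        ∫ x in (1 : ℝ)..X, ((count (J + k) (shifts J k α) x : ℝ) - x * P.eval (Real.log x)) ^ 2 ≤
          C * X ^ (1 + (((J + k : ℕ) : ℝ) - 1) / ((J + k : ℕ) : ℝ) + ε)

/-- Lower bound: for `K ≥ 2`, for every shift vector `β ∈ [0, 1)^K` and every main term `x Q(log x)`. -/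
def Lower : Prop :=
  ∀ K : ℕ, 2 ≤ K → ∀ β : Fin K → ℝ, (∀ i, 0 ≤ β i ∧ β i < 1) →
    ∀ (Q : ℝ[X]) (b : ℝ), b < ((K : ℝ) - 1) / (2 * K) →
      ¬ ∃ C : ℝ, ∀ X : ℝ, 1 ≤ X →
        ∫ x in (1 : ℝ)..X, ((count K β x : ℝ) - x * Q.eval (Real.log x)) ^ 2 ≤ C * X ^ (1 + 2 * b)

theorem upper : Upper := by
  intro J k hJ hK
  have hcm : MeasurableSet (Set.pi Set.univ fun _ : Fin k => Set.Ico (0 : ℝ) 1) :=
    MeasurableSet.univ_pi (fun _ => measurableSet_Ico)
  filter_upwards [top J k hJ hK, ae_restrict_mem hcm] with α hα hcube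
  obtain ⟨P, hP, h⟩ := hα
  refine ⟨P, hP, fun ε hε => ?_⟩
  obtain ⟨C, hC⟩ := h ε hε
  have hs : ∀ i, 0 ≤ shifts J k α i := fun i =>
    (Pool.Agent.J4H38.GS.app_mem (J := J) hcube i (Set.mem_univ i)).1
  exact ⟨C, fun X hX => ⟨sq_int hs P hX, hC X hX⟩⟩

theorem lower : Lower := fun K hK β hβ => low K hK β fun i _ => ⟨(hβ i).1, (hβ i).2⟩

/-- The mean square of the remainder in the Piltz divisor problem with shifts: the exponent of the conjecture is an upper bound for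
almost all shifts, up to two of them zero, and a lower bound for all shifts. -/
theorem result : Upper ∧ Lower := ⟨upper, lower⟩

end Pool.Agent.J4H38.GS.RV4
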