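import Pool.Agent.J4H38.GS.Stm3

/-!
# Project GS (helper38, MP_bc6037_nt), fourth part: the lower bound for EVERY shift vector

`s = 1 - w`, `Re w > 1/2`, `Im w ≥ 1`.  By the functional equation `∑_{n ≥ 1} (n + a)^{-s} = AA w * EE a w`, and `EE a w` is near
`e(a)` for large `Re w`.  Shift of the line with the weight `((w - iT)(2iT - w)/T²)^m` gives `∫_T^{2T} |∏ EE (β_i)|² ≥ c T` on every
line `Re w = x > 1/2`.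
-/

set_option autoImplicit false

open MeasureTheory Set Filter Polynomial Topology
open scoped ComplexConjugate

namespace Pool.Agent.J4H38.GS

noncomputable section

/-- the factor of the functional equation -/
def AA (w : ℂ) : ℂ := (2 * Real.pi : ℂ) ^ (-w) * Complex.Gamma w * Complex.exp (-(Real.pi * Complex.I * w / 2))

/-- the other factor -/
def EE (a : ℝ) (w : ℂ) : ℂ := HurwitzZeta.expZeta (a : UnitAddCircle) w +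
  Complex.exp (Real.pi * Complex.I * w) * HurwitzZeta.expZeta (-(a : UnitAddCircle)) w - (a : ℂ) ^ (w - 1) / AA w

/-- (L1), 80 lines.  By S_HUR, S_DAN and the identity theorem on `Re s > 0`, `s ≠ 1`: `DD a s + 1/(s-1) = hurwitzZeta a s - a^{-s}`
(`(0 : ℂ)^(-s) = 0`; `hasSum_hurwitzZeta_of_one_lt_re`); then `hurwitzZeta_one_sub`. -/
def S_L1 : Prop := ∀ a : ℝ, 0 ≤ a → a < 1 → ∀ w : ℂ, 0 < w.re → w.re < 1 → 1 ≤ w.im →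
  DD a (1 - w) + 1 / ((1 - w) - 1) = AA w * EE a w

/-- (L2), 60 lines.  `|AA (x+it)| = (2π)^{-x} |Γ(x+it)| e^{πt/2}`; for `1/2 ≤ x ≤ 3/2` reflection as in `gam_low`
(`Pool/Agent/J4H72/GS/E1.lean`): `|Γ(w)| = π/(|sin πw| |Γ(1-w)|)`, `|Γ(1-w)| = |Γ(2-w)|/|1-w|`, `Gamma_upper` with the explicit constant
`4 (1+σ)^(σ-1/2)`; then `|Γ(w+1)| = |w| |Γ(w)| ≥ t |Γ(w)|`, induction on `X`. -/
def S_L2 : Prop := ∀ X : ℝ, ∃ c : ℝ, 0 < c ∧ ∀ w : ℂ, 1 / 2 ≤ w.re → w.re ≤ X → 1 ≤ w.im → c * w.im ^ (w.re - 1 / 2) ≤ ‖AA w‖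

/-- (L3), 100 lines.  `a ∈ ℤ`: `expZeta 0 = riemannZeta`, S_DAN and S_HUR with `a = 0` and the identity theorem.  Otherwise
`expZeta a w = w ∫_1^∞ (∑_{n ≤ y} e(an)) y^{-w-1} dy` for `Re w > 1` (`sum_mul_eq_sub_integral_mul` or `LSeries_eq_mul_integral`), the
sums are bounded by `2/|e(a) - 1|`, identity theorem on `Re w > 0`. -/
def S_L3 : Prop := ∀ a : ℝ, ∃ C : ℝ, 0 ≤ C ∧ ∀ w : ℂ, 1 / 2 ≤ w.re → 1 ≤ w.im →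
  ‖HurwitzZeta.expZeta (a : UnitAddCircle) w‖ ≤ C * ‖w‖

/-- (L4), 60 lines, from L2.  `hasSum_expZeta_of_one_lt_re`: `|expZeta a w - e(a)| ≤ ∑_{n ≥ 2} n^{-κ}`, `|expZeta (-a) w| ≤ 2`,
`|e^{πiw}| = e^{-πt}`, `|a^{w-1}| ≤ 1`, `1/|AA w| ≤ t^{1/2-κ}/c`. -/
def S_L4 : Prop := ∀ a : ℝ, 0 ≤ a → a < 1 → ∀ ε : ℝ, 0 < ε → ∃ κ₀ : ℝ, 2 ≤ κ₀ ∧ ∀ κ : ℝ, κ₀ ≤ κ → ∃ t₀ : ℝ, 1 ≤ t₀ ∧ ∀ t : ℝ, t₀ ≤ t →
  ‖EE a ((κ : ℂ) + t * Complex.I) - Complex.exp (2 * Real.pi * Complex.I * a)‖ ≤ ε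

/-- (L5), 150 lines, Mathlib only.  `W w = (-((w - iT)(2iT - w)/T²))^m`, `m` large against `B`: Cauchy's theorem on the rectangle
`[x, κ] × [T, 2T]` (`Complex.integral_boundary_rect_eq_zero_of_differentiableOn`); on the horizontal sides `|W| ≤ (3κ/T)^m`, `|H| ≤ C' T^B`; on
the right side `|H - u| ≤ 1/2` and `|W - v(t)^m| ≤ C/T`, `v(t) = (t - T)(2T - t)/T² ∈ [0, 1/4]`, so `|∫ H W| ≥ c T`; on the left side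
`|W| ≤ 1` and Cauchy-Schwarz. -/
def S_L5 : Prop := ∀ (H : ℂ → ℂ) (x κ C B : ℝ) (u : ℂ) (t₀ : ℝ), 0 ≤ x → x < κ → DifferentiableOn ℂ H {w : ℂ | x ≤ w.re ∧ 1 ≤ w.im} →
  (∀ w : ℂ, x ≤ w.re → w.re ≤ κ → 1 ≤ w.im → ‖H w‖ ≤ C * w.im ^ B) → ‖u‖ = 1 →
  (∀ t : ℝ, t₀ ≤ t → ‖H ((κ : ℂ) + t * Complex.I) - u‖ ≤ 1 / 2) →
  ∃ c T₀ : ℝ, 0 < c ∧ 1 ≤ T₀ ∧ ∀ T : ℝ, T₀ ≤ T → c * T ≤ ∫ t in T..(2 * T), ‖H ((x : ℂ) + t * Complex.I)‖ ^ 2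

/-- (L6), 100 lines, from L1, ..., L5 with `H = ∏ EE (β i)`, `u = ∏ e(β i)`, `x = 1 - σ` -/
def S_L6 : Prop := ∀ (k : ℕ) (β : Fin k → ℝ) (σ : ℝ), β ∈ cube k → 0 < σ → σ < 1 / 2 → ∃ c T₀ : ℝ, 0 < c ∧ 1 ≤ T₀ ∧ ∀ T : ℝ, T₀ ≤ T →
  c * T ^ (1 + k * (1 - 2 * σ)) ≤ ∫ t in T..(2 * T), ‖∏ i, (DD (β i) (ln σ (-t)) + 1 / (ln σ (-t) - 1))‖ ^ 2

/-- (LOW2): the lower bound for every shift vector (from L6, E7) -/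
def S_LOW2 : Prop := ∀ k : ℕ, 2 ≤ k → ∀ α ∈ cube k, ∀ (Q : ℝ[X]) (b : ℝ), b < ((k : ℝ) - 1) / (2 * k) →
  ¬ ∃ C : ℝ, ∀ X : ℝ, 1 ≤ X → ∫ x in (1 : ℝ)..X, ((cnt k α x : ℝ) - x * Q.eval (Real.log x)) ^ 2 ≤ C * X ^ (1 + 2 * b)

end

end Pool.Agent.J4H38.GS
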